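import Pool.Agent.Helper60.LT.G6
import Pool.Agent.Helper60.LT.G4
import Pool.Agent.Helper60.QL.Defs
import Pool.Agent.Helper92.LA.Defs

/-!
# Project RT (MP_fb29e9_nt): every lattice, almost every stretch, all centres: exponent 5/9. Definitions

`e = (e₁, e₂)`: a frame of the plane (dual lattice), `st s e`: its image under `(x, y) ↦ (x, s y)`. Frequencies `k` in the cone, slope `t = k.2 / k.1`; `l1 e t`, `l2 e t`: the coordinates of `e₁ + t e₂`;
the shear of the frame `(e₁ + t e₂, e₂)` stretched by `s` has the derivative `2 s l1 l2 det / |..|⁴` in `s`: the bad slopes are the zeros of `l1`, `l2`.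
-/

open MeasureTheory Real Set Filter Topology

set_option autoImplicit false

namespace Pool.Agent.Helper60.RT

open Pool.Agent.Helper22.AE
open Pool.Agent.Helper92.GC (dt tp Tq uu tt arc dd sqa m6)
open Pool.Agent.Helper92.DT (m12 IsMul12)
open Pool.Agent.Helper60.LT (Fr Tf xf yf df vf fr ac co Cut BB)
open Pool.Agent.Helper60.QL (R3 nm pA xA sA TA Cone)

/-- `ℝ²` -/
abbrev R2 : Type := ℝ × ℝ

/-- the stretched frame -/
def st (s : ℝ) (e : Fr) : Fr := ((e.1.1, s * e.1.2), (e.2.1, s * e.2.2))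

/-- the twelfth moment over the centres: radius `r`, frame `f` -/
noncomputable def mr (S : Finset (ℤ × ℤ)) (r : ℝ) (f : Fr) : ℝ := m12 S (fun k => ee (r * nm (vf f k)))

/-- the integral over the stretches and the radii -/
noncomputable def RI (e : Fr) (B X : ℝ) (S : Finset (ℤ × ℤ)) : ENNReal :=
  ∫⁻ s in Icc B⁻¹ B, ∫⁻ r in Icc (X / B) (B * X), ENNReal.ofReal (mr S r (st s e))

/-- first coordinate of `e₁ + t e₂` -/
def l1 (e : Fr) (t : ℝ) : ℝ := e.1.1 + t * e.2.1

/-- second coordinate of `e₁ + t e₂` -/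
def l2 (e : Fr) (t : ℝ) : ℝ := e.1.2 + t * e.2.2

/-- the frequencies of the cone `-k.1 < k.2 ≤ k.1` in the square annulus `N ≤ max (|k.1|, |k.2|) < 2 N` -/
noncomputable def cn (N : ℕ) : Finset (ℤ × ℤ) := (sqa N).filter (fun k => -k.1 < k.2 ∧ k.2 ≤ k.1)

/-- all slopes of `S` are at distance about `σ` from the bad slopes -/
def Gd (e : Fr) (σ Λ : ℝ) (S : Finset (ℤ × ℤ)) : Prop :=
  ∀ k ∈ S, σ ≤ |l1 e (tt 0 k) * l2 e (tt 0 k)| ∧ |l1 e (tt 0 k) * l2 e (tt 0 k)| ≤ Λ * σ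

/-- the bound of the moment -/
noncomputable def FR (X N : ℝ) : ℝ := X * (N ^ 12 + N ^ 15 * X ^ (-(1 / 3) : ℝ))

/-! ## The family near a slope `t`: coordinates `A = (A₂, A₃)` -/

/-- the value of the shear for `s = 0` -/
noncomputable def x0 (e : Fr) (t : ℝ) : ℝ := e.2.1 / l1 e t

/-- the value of the shear for `s = ∞` -/
noncomputable def x8 (e : Fr) (t : ℝ) : ℝ := e.2.2 / l2 e t

/-- the coefficient `A₄` as a function of `A₂`, `A₃` -/
noncomputable def A4 (e : Fr) (t : ℝ) (A : R2) : ℝ := 5 * A.2 ^ 2 / (4 * A.1) + (x0 e t + x8 e t) * A.2 / 4 + x0 e t * x8 e t * A.1 / 4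

/-- the embedding into the coordinates of all forms -/
noncomputable def em (e : Fr) (t : ℝ) (A : R2) : R3 := (A.1, A.2, A4 e t A)

/-- the squared length of `e₁ + t e₂` stretched by `s` -/
def T2 (e : Fr) (t s : ℝ) : ℝ := l1 e t ^ 2 + s ^ 2 * l2 e t ^ 2

/-- `A₂ / r = T y² / 2 = s² det² / (2 T³)` -/
noncomputable def c2 (e : Fr) (t s : ℝ) : ℝ := s ^ 2 * df e ^ 2 / (2 * (T2 e t s * √(T2 e t s)))

/-- the shear -/
noncomputable def xs (e : Fr) (t s : ℝ) : ℝ := (l1 e t * e.2.1 + s ^ 2 * (l2 e t * e.2.2)) / T2 e t s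

/-- the coordinates of the member `(r, s)` of the family -/
noncomputable def Ar (e : Fr) (t : ℝ) (q : R2) : R2 := (q.1 * c2 e t q.2, -(xs e t q.2 * (q.1 * c2 e t q.2)))

/-- the region of the family -/
noncomputable def OR (e : Fr) (t B X : ℝ) : Set R2 := Ar e t '' (Icc (X / B) (B * X) ×ˢ Icc B⁻¹ B)

/-- the twelfth moment of the family near the slope `t` -/
noncomputable def qr (e : Fr) (t : ℝ) (S : Finset (ℤ × ℤ)) (A : R2) : ℝ := m12 S (fun k => ee (uu 0 k * pA (em e t A) (tt 0 k - t)))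

/-- the linear phase `u (R₁ τ² + R₂ τ³)` -/
noncomputable def ln2 (t : ℝ) (R : R2) (k : ℤ × ℤ) : ℝ := uu 0 k * (R.1 * (tt 0 k - t) ^ 2 + R.2 * (tt 0 k - t) ^ 3)

/-- the twelfth moment of the linear family -/
noncomputable def lf2 (t : ℝ) (S : Finset (ℤ × ℤ)) (a : ℤ × ℤ → ℂ) (R : R2) : ℝ := m12 S (fun k => a k * ee (ln2 t R k))

/-! ## Farey vectors -/

/-- the slope of an integer vector -/
noncomputable def sp (n : ℤ × ℤ) : ℝ := (n.2 : ℝ) / (n.1 : ℝ)

/-- a primitive vector with positive first coordinate -/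
def Pr (n : ℤ × ℤ) : Prop := IsCoprime n.1 n.2 ∧ 0 < n.1

end Pool.Agent.Helper60.RT
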