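import Pool.Agent.Helper60.RT.Defs
import Pool.Agent.Helper78.CG.Main

/-!
# Project RT: definitions of the block statements
-/

open MeasureTheory Real Set Filter Topology

set_option autoImplicit false

namespace Pool.Agent.Helper60.RT

open Pool.Agent.Helper22.AE
open Pool.Agent.Helper22.AC (IsWt)
open Pool.Agent.Helper92.GC (dt tp Tq uu tt arc dd sqa m6)
open Pool.Agent.Helper92.DT (m12 IsMul12)
open Pool.Agent.Helper60.LT (Fr Tf xf yf df vf fr ac co Cut BB PP)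
open Pool.Agent.Helper60.QL (R3 nm pA xA sA TA Cone)
open Pool.Agent.Helper78.CD (n12)
open Pool.Agent.Helper78.CE (hs mu2)

/-- the decoupling theorem for the moment curve of degree 3 -/
def Dec12 (ε lam : ℝ) (M : ℕ) (C : ℝ) : Prop :=
  ∀ (m : ℕ) (H Y t₀ : ℝ) (v₁ v₂ : ℝ → ℝ) (a : ℤ × ℤ → ℂ) (S : Finset (ℤ × ℤ)), 0 < H → 0 < Y → |t₀| ≤ 3 → IsWt Y v₁ → IsWt Y v₂ →
    (∀ k ∈ S, H / lam ≤ uu 0 k ∧ uu 0 k ≤ lam * H ∧ |tt 0 k - t₀| ≤ 1) → C * (M : ℝ) ^ (3 * m) ≤ H * Y →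
    n12 (mu2 v₁ v₂) (hs S a (fun k => uu 0 k * (tt 0 k - t₀) ^ 2) (fun k => uu 0 k * (tt 0 k - t₀) ^ 3)) ≤ C * (M : ℝ) ^ (ε * (m : ℝ)) *
      ∑ r ∈ Finset.range (M ^ m), n12 (mu2 v₁ v₂) (hs (arc 0 S (M ^ m) r) a (fun k => uu 0 k * (tt 0 k - t₀) ^ 2) (fun k => uu 0 k * (tt 0 k - t₀) ^ 3))

/-- D4: one step -/
def StepR (e : Fr) (ε lam Λ : ℝ) (M n : ℕ) (B C B' E : ℝ) (m₁ : ℕ) : Prop :=
  ∀ (m m' r : ℕ) (X H κ σ : ℝ) (S : Finset (ℤ × ℤ)), m₁ ≤ m → m ≤ m' → 1 ≤ X → 1 ≤ H → C ≤ κ → Cone H lam S → 0 < σ →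
    Gd e σ Λ (arc 0 S (M ^ m) r) → C * κ * (M : ℝ) ^ (3 * m') ≤ σ * (X * H) → C * κ * (M : ℝ) ^ (3 * m') ≤ σ * (M : ℝ) ^ (4 * m) →
      RI e B X (arc 0 S (M ^ m) r) ^ (1 / 6 : ℝ) ≤ ENNReal.ofReal (C * κ * (M : ℝ) ^ (ε * (m' : ℝ))) *
        ∑ r' ∈ Finset.range (M ^ m'), (RI e B' X (arc 0 (arc 0 S (M ^ m) r) (M ^ m') r') +
          ENNReal.ofReal (E * (X / σ) * (S.card : ℝ) ^ 12 * κ⁻¹ ^ n)) ^ (1 / 6 : ℝ)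

open Classical in
/-- pairs with small determinant -/
noncomputable def prs (S : Finset (ℤ × ℤ)) (D : ℝ) : Finset ((ℤ × ℤ) × (ℤ × ℤ)) := (S ×ˢ S).filter (fun z => |((dd z.1 z.2 : ℤ) : ℝ)| ≤ D)

/-- the shear of the frame of `n` -/
noncomputable def xn (e : Fr) (n : ℤ × ℤ) (s : ℝ) : ℝ := xf (ac n (co n) (st s e))

/-- `T y²` of the frame of `n` -/
noncomputable def yn (e : Fr) (n : ℤ × ℤ) (s : ℝ) : ℝ := Tf (ac n (co n) (st s e)) * yf (ac n (co n) (st s e)) ^ 2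

/-- the centre of the arc number `r` of `N` arcs -/
noncomputable def ctr (N r : ℕ) : ℝ := 12 * ((r : ℝ) + 1 / 2) / N - 6

/-- the part of a family of arcs -/
noncomputable def SS (e : Fr) (B X : ℝ) (G : Finset (ℤ × ℤ)) (N : ℕ) (P : Finset ℕ) : ENNReal :=
  (∑ r ∈ P, (RI e B X (arc 0 G N r) + 1) ^ (1 / 6 : ℝ)) ^ (6 : ℝ)

/-- the standing hypotheses on the parameters of a good sector -/
structure Par (e : Fr) (M : ℕ) (ε₀ X σ : ℝ) (N m₀ m₂ r₀ : ℕ) : Prop where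
  X1 : 1 ≤ X
  N1 : 1 ≤ N
  lo : X ^ (1 / 10 : ℝ) ≤ N
  hi : (N : ℝ) ≤ X ^ (4 / 9 + 1 / 1000 : ℝ)
  m : m₀ ≤ m₂
  k1 : (M : ℝ) ^ (4 * m₂) ≤ X * N
  k2 : X * N < (M : ℝ) ^ (4 * m₂ + 4)
  σ0 : 0 < σ
  gd : Gd e σ 4 (arc 0 (cn N) (M ^ m₀) r₀)
  σm : (X * N) ^ ε₀ ≤ σ * (M : ℝ) ^ m₀

end Pool.Agent.Helper60.RT
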