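import Pool.Agent.Helper33.RT.K
import Pool.Agent.Helper77.RT.Num
import Pool.Agent.Helper58.RT.B2
import Pool.Agent.Helper78.RT.ClassILast
import Pool.Agent.Helper5.RT.E1bv
import Pool.Agent.Helper78.RT.Iter
import Pool.Agent.Helper82.RT.D1
import Pool.Agent.Helper86.RT.StepR

/-!
# RT-E1c: the classes of arcs, the bound of a good sector
-/

open MeasureTheory Real Set Filter Topology

set_option autoImplicit false

namespace Pool.Agent.Helper60.RT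

open Pool.Agent.Helper22.AE
open Pool.Agent.Helper22.AC (IsWt)
open Pool.Agent.Helper92.GC (dt tp Tq uu tt arc dd sqa m6)
open Pool.Agent.Helper92.DT (m12 IsMul12)
open Pool.Agent.Helper60.LT (Fr Tf xf yf df vf fr ac co Cut BB PP)
open Pool.Agent.Helper60.QL (R3 nm pA xA sA TA Cone)
open Pool.Agent.Helper78.CD (n12)
open Pool.Agent.Helper78.CE (hs mu2)

private theorem rpow6_root (x : ENNReal) : (x ^ (6 : ℝ)) ^ (1 / 6 : ℝ) = x := by
  rw [← ENNReal.rpow_mul]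
  norm_num

private theorem rpow6_root' (x : ENNReal) : (x ^ (1 / 6 : ℝ)) ^ (6 : ℝ) = x := by
  rw [← ENNReal.rpow_mul]
  norm_num

/-- a family of arcs covered by classes -/
private theorem ss_cover {ι : Type} (e : Fr) (B X : ℝ) (G : Finset (ℤ × ℤ)) (N : ℕ) (T : Finset ι) (P : ι → Finset ℕ) (Q : Finset ℕ)
    (hcov : ∀ r ∈ Q, ∃ i ∈ T, r ∈ P i) {b : ENNReal} (hb : ∀ i ∈ T, SS e B X G N (P i) ≤ b) :
    SS e B X G N Q ≤ ENNReal.ofReal ((T.card : ℝ) ^ 6) * b := by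
  classical
  obtain ⟨g, hg⟩ : ∃ g : ℕ → ENNReal, ∀ r, g r = (RI e B X (arc 0 G N r) + 1) ^ (1 / 6 : ℝ) := ⟨_, fun _ => rfl⟩
  have hS : ∀ R : Finset ℕ, SS e B X G N R = (∑ r ∈ R, g r) ^ (6 : ℝ) := by
    intro R
    unfold SS
    congr 1
    exact Finset.sum_congr rfl fun r _ => (hg r).symm
  have h1 : ∑ r ∈ Q, g r ≤ ∑ i ∈ T, ∑ r ∈ P i, g r := by
    calc ∑ r ∈ Q, g r ≤ ∑ r ∈ Q, ∑ i ∈ T, if r ∈ P i then g r else 0 := by
          refine Finset.sum_le_sum fun r hr => ?_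
          obtain ⟨i, hi, hri⟩ := hcov r hr
          have h2 : (if r ∈ P i then g r else 0) ≤ ∑ i ∈ T, if r ∈ P i then g r else 0 :=
            Finset.single_le_sum (f := fun i => if r ∈ P i then g r else 0) (fun _ _ => zero_le) hi
          rwa [if_pos hri] at h2
      _ = ∑ i ∈ T, ∑ r ∈ Q, if r ∈ P i then g r else 0 := Finset.sum_comm
      _ ≤ _ := by
          refine Finset.sum_le_sum fun i _ => ?_
          rw [← Finset.sum_filter]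
          exact Finset.sum_le_sum_of_subset fun r hr => (Finset.mem_filter.1 hr).2
  have h2 : ∀ i ∈ T, ∑ r ∈ P i, g r ≤ b ^ (1 / 6 : ℝ) := by
    intro i hi
    have h3 := hb i hi
    rw [hS] at h3
    have h4 := ENNReal.rpow_le_rpow h3 (by norm_num : (0 : ℝ) ≤ 1 / 6)
    rwa [rpow6_root] at h4
  have h3 : ∑ r ∈ Q, g r ≤ (T.card : ENNReal) * b ^ (1 / 6 : ℝ) := by
    refine h1.trans ((Finset.sum_le_sum h2).trans (le_of_eq ?_))
    rw [Finset.sum_const, nsmul_eq_mul]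
  rw [hS]
  refine (ENNReal.rpow_le_rpow h3 (by norm_num : (0 : ℝ) ≤ 6)).trans (le_of_eq ?_)
  rw [ENNReal.mul_rpow_of_nonneg _ _ (by norm_num : (0 : ℝ) ≤ 6), rpow6_root']
  congr 1
  have h5 : (6 : ℝ) = ((6 : ℕ) : ℝ) := by norm_num
  rw [h5, ENNReal.rpow_natCast, ENNReal.ofReal_pow (Nat.cast_nonneg _), ENNReal.ofReal_natCast]

private theorem RI_empty (e : Fr) (B X : ℝ) : RI e B X ∅ = 0 := by
  unfold RI mr m12
  simp [tp]

/-- the trivial bound -/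
private theorem RI_triv (e : Fr) {B X : ℝ} (hB : 1 ≤ B) (hX : 1 ≤ X) (S : Finset (ℤ × ℤ)) : RI e B X S ≤ ENNReal.ofReal (B ^ 2 * X * (S.card : ℝ) ^ 11) := by
  have hB0 : 0 < B := by linarith
  have hX0 : 0 < X := by linarith
  have h1 : ∀ (r : ℝ) (f : Fr), mr S r f ≤ (S.card : ℝ) ^ 11 := by
    intro r f
    exact Pool.Agent.Helper60.LT.m12_le_card S fun k _ => (ee_norm _).le
  unfold RI
  calc ∫⁻ s in Icc B⁻¹ B, ∫⁻ r in Icc (X / B) (B * X), ENNReal.ofReal (mr S r (st s e))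
      ≤ ∫⁻ _ in Icc B⁻¹ B, ∫⁻ _ in Icc (X / B) (B * X), ENNReal.ofReal ((S.card : ℝ) ^ 11) := by
        refine lintegral_mono fun s => lintegral_mono fun r => ENNReal.ofReal_le_ofReal (h1 _ _)
    _ ≤ _ := by
        rw [setLIntegral_const, setLIntegral_const, Real.volume_Icc, Real.volume_Icc, ← ENNReal.ofReal_mul (by positivity), ← ENNReal.ofReal_mul (by
          have : 0 ≤ B * X - X / B := by
            rw [sub_nonneg, div_le_iff₀ hB0]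
            have : 1 ≤ B * B := one_le_mul_of_one_le_of_one_le hB hB
            nlinarith
          positivity)]
        refine ENNReal.ofReal_le_ofReal ?_
        have h2 : B * X - X / B ≤ B * X := by
          have : 0 ≤ X / B := by positivity
          linarith
        have h3 : B - B⁻¹ ≤ B := by
          have : 0 ≤ B⁻¹ := by positivity
          linarith
        have h4 : 0 ≤ B - B⁻¹ := by
          have : B⁻¹ ≤ 1 := inv_le_one_of_one_le₀ hB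
          linarith
        calc (S.card : ℝ) ^ 11 * (B * X - X / B) * (B - B⁻¹) ≤ (S.card : ℝ) ^ 11 * (B * X) * B := by gcongr
          _ = _ := by ring

private theorem cn_card (N : ℕ) : ((cn N).card : ℝ) ≤ 10 * (N : ℝ) ^ 2 := by
  by_cases hN : N = 0
  · have h1 : cn N = ∅ := by
      rw [hN]
      unfold cn sqa
      ext k
      simp
    rw [h1]
    simp
  have hN1 : 1 ≤ N := Nat.one_le_iff_ne_zero.2 hN
  have hc := (cn_cone hN1).2
  have h1 : cn N ⊆ (Finset.Icc (0 : ℤ) (2 * N - 1)) ×ˢ (Finset.Icc (-(2 * N - 1) : ℤ) (2 * N - 1)) := by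
    intro k hk
    obtain ⟨h2, h3, h4⟩ := hc k hk
    have h5 : k.1 < 2 * (N : ℤ) := by exact_mod_cast h3
    have h6 : (N : ℤ) ≤ k.1 := by exact_mod_cast h2
    have h7 : -k.1 < k.2 ∧ k.2 ≤ k.1 := by
      unfold cn at hk
      exact (Finset.mem_filter.1 hk).2
    rw [Finset.mem_product, Finset.mem_Icc, Finset.mem_Icc]
    refine ⟨⟨?_, ?_⟩, ?_, ?_⟩ <;> omega
  have h2 := Finset.card_le_card h1
  rw [Finset.card_product, Int.card_Icc, Int.card_Icc] at h2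
  have h3 : (2 * (N : ℤ) - 1 + 1 - 0).toNat = 2 * N := by omega
  have h4 : (2 * (N : ℤ) - 1 + 1 - -(2 * (N : ℤ) - 1)).toNat = 4 * N - 1 := by omega
  rw [h3, h4] at h2
  have h5 : 2 * N * (4 * N - 1) ≤ 10 * N ^ 2 := by
    calc 2 * N * (4 * N - 1) ≤ 2 * N * (4 * N) := Nat.mul_le_mul_left _ (Nat.sub_le _ _)
      _ ≤ 10 * N ^ 2 := by nlinarith [Nat.zero_le (N ^ 2)]
  exact_mod_cast h2.trans h5

/-- the number of classes -/
private theorem log_cls {η : ℝ} (hη : 0 < η) : ∃ C : ℝ, 1 ≤ C ∧ ∀ (X : ℝ) (J : ℕ), 1 ≤ X → (J : ℝ) ≤ 1 + 4 * log X → ((3 * J : ℕ) : ℝ) ^ 6 ≤ C * X ^ (η / 2) := by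
  refine ⟨(3 * (1 + 48 / η)) ^ 6, one_le_pow₀ ?_, ?_⟩
  · have : 0 ≤ 48 / η := by positivity
    linarith
  intro X J hX hJ
  have hX0 : 0 < X := by linarith
  have h1 : log X ≤ X ^ (η / 12) / (η / 12) := log_le_rpow_div hX0.le (by positivity)
  have h2 : 1 ≤ X ^ (η / 12) := one_le_rpow hX (by positivity)
  have h3 : ((3 * J : ℕ) : ℝ) ≤ 3 * (1 + 48 / η) * X ^ (η / 12) := by
    push_cast
    have h4 : 4 * (X ^ (η / 12) / (η / 12)) = 48 / η * X ^ (η / 12) := by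
      field_simp
      norm_num
    have h5 : (J : ℝ) ≤ 1 + 48 / η * X ^ (η / 12) := by
      rw [← h4]
      linarith
    have h6 : 3 * (1 + 48 / η) * X ^ (η / 12) = 3 * (X ^ (η / 12) + 48 / η * X ^ (η / 12)) := by ring
    rw [h6]
    linarith
  calc ((3 * J : ℕ) : ℝ) ^ 6 ≤ (3 * (1 + 48 / η) * X ^ (η / 12)) ^ 6 := pow_le_pow_left₀ (Nat.cast_nonneg _) h3 6
    _ = (3 * (1 + 48 / η)) ^ 6 * X ^ (η / 2) := by
        rw [mul_pow, ← rpow_natCast (X ^ (η / 12)) 6, ← rpow_mul hX0.le]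
        congr 2
        push_cast
        ring

private theorem FR_pos {X N : ℝ} (hX : 1 ≤ X) (hN : 1 ≤ N) : 1 ≤ FR X N ∧ X * N ^ 12 ≤ FR X N := by
  have hX0 : 0 < X := by linarith
  have hN0 : 0 < N := by linarith
  have h1 : X * N ^ 12 ≤ FR X N := by
    unfold FR
    have : 0 ≤ N ^ 15 * X ^ (-(1 / 3) : ℝ) := by positivity
    exact mul_le_mul_of_nonneg_left (by linarith) hX0.le
  exact ⟨(one_le_mul_of_one_le_of_one_le hX (one_le_pow₀ hN)).trans h1, h1⟩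

/-- E1c: all arcs -/
theorem classes {e : Fr} (he : 0 < df e) {η ε₀ B : ℝ} {M : ℕ} (hη : 0 < η) (hε₀ : 0 < ε₀) (hB : 1 ≤ B) (hM : 2 ≤ M) : ∃ C : ℝ, 1 ≤ C ∧
    ∀ (X σ : ℝ) (N m₀ m₂ r₀ : ℕ), Par e M ε₀ X σ N m₀ m₂ r₀ →
        SS e B X (arc 0 (cn N) (M ^ m₀) r₀) (M ^ m₂) (Finset.range (M ^ m₂)) ≤ ENNReal.ofReal (C * X ^ η * FR X N) := by
  classical
  have hη2 : 0 < η / 2 := by positivity
  obtain ⟨C₁, hC₁, hI⟩ := class_I he hη2 hε₀ hB hM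
  obtain ⟨C₂, hC₂, hII⟩ := class_II he hη2 hε₀ hB hM
  have hMr : (2 : ℝ) ≤ (M : ℝ) := by exact_mod_cast hM
  have hM1 : (1 : ℝ) ≤ (M : ℝ) := by linarith
  have hM0 : (0 : ℝ) < (M : ℝ) := by linarith
  have hb1 : (1 : ℝ) ≤ 12 ^ 4 * (M : ℝ) ^ 4 := one_le_mul_of_one_le_of_one_le (by norm_num) (one_le_pow₀ hM1)
  obtain ⟨C₃, hC₃, hnum⟩ := num_bds hb1
  obtain ⟨C₄, hC₄, hlog⟩ := log_cls hη
  obtain ⟨K₁, hK₁⟩ : ∃ K₁ : ℝ, K₁ = 24 ^ 4 * (M : ℝ) ^ 4 := ⟨_, rfl⟩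
  have hK₁0 : 0 < K₁ := by rw [hK₁]; positivity
  obtain ⟨C₅, hC₅⟩ : ∃ C₅ : ℝ, C₅ = 24 ^ 6 * (B ^ 2 * (10 ^ 11 * K₁ ^ 10) + 1) := ⟨_, rfl⟩
  obtain ⟨C, hC⟩ : ∃ C : ℝ, C = C₄ * (C₁ + C₂ + C₃) + C₅ := ⟨_, rfl⟩
  have hC₅0 : 0 ≤ C₅ := by
    rw [hC₅]
    have hB0 : 0 < B := by linarith
    positivity
  have hCC : C₄ * (C₁ + C₂ + C₃) ≤ C := by
    rw [hC]
    linarith
  have hCC5 : C₅ ≤ C := by
    rw [hC]
    have : 0 ≤ C₄ * (C₁ + C₂ + C₃) := by positivity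
    linarith
  refine ⟨C, ?_, ?_⟩
  · have : 1 ≤ C₄ * (C₁ + C₂ + C₃) := one_le_mul_of_one_le_of_one_le hC₄ (by linarith)
    linarith
  intro X σ N m₀ m₂ r₀ hP
  have hX := hP.X1
  have hN := hP.N1
  have hNr : (1 : ℝ) ≤ N := by exact_mod_cast hN
  have hX0 : 0 < X := by linarith
  have hN0 : (0 : ℝ) < N := by linarith
  have hF := FR_pos hX hNr
  have hXη : 1 ≤ X ^ η := one_le_rpow hX hη.le
  have hXη2 : 1 ≤ X ^ (η / 2) := one_le_rpow hX hη2.le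
  have hMm2 : 0 < (M : ℝ) ^ m₂ := by positivity
  have hM21 : 1 ≤ (M : ℝ) ^ m₂ := one_le_pow₀ hM1
  have hM22 : (M : ℝ) ^ (4 * m₂) = ((M : ℝ) ^ m₂) ^ 4 := by
    rw [← pow_mul]
    congr 1
    ring
  have hk1 := hP.k1
  have hk2 := hP.k2
  rw [hM22] at hk1
  obtain ⟨G, hG⟩ : ∃ G : Finset (ℤ × ℤ), G = arc 0 (cn N) (M ^ m₀) r₀ := ⟨_, rfl⟩
  have hGs : G ⊆ cn N := by
    rw [hG]
    exact Finset.filter_subset _ _
  rw [← hG]
  by_cases hsm : (M : ℝ) ^ m₂ < 24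
  · -- small
    have hK : X * N ≤ K₁ := by
      refine hk2.le.trans ?_
      rw [hK₁, pow_add, hM22]
      exact mul_le_mul_of_nonneg_right (pow_le_pow_left₀ hMm2.le hsm.le 4) (by positivity)
    have hNK : (N : ℝ) ≤ K₁ := by
      refine le_trans ?_ hK
      nlinarith
    have h1 : ∀ r ∈ Finset.range (M ^ m₂), (RI e B X (arc 0 G (M ^ m₂) r) + 1) ^ (1 / 6 : ℝ) ≤
        ENNReal.ofReal ((B ^ 2 * (10 ^ 11 * K₁ ^ 10) + 1) * FR X N) ^ (1 / 6 : ℝ) := by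
      intro r _
      refine ENNReal.rpow_le_rpow ?_ (by norm_num)
      have h2 := RI_triv e hB hX (arc 0 G (M ^ m₂) r)
      have h3 : ((arc 0 G (M ^ m₂) r).card : ℝ) ≤ 10 * (N : ℝ) ^ 2 := by
        refine le_trans ?_ (cn_card N)
        exact_mod_cast Finset.card_le_card ((Finset.filter_subset _ _).trans hGs)
      have h4 : B ^ 2 * X * ((arc 0 G (M ^ m₂) r).card : ℝ) ^ 11 ≤ B ^ 2 * (10 ^ 11 * K₁ ^ 10) * FR X N := by
        calc B ^ 2 * X * ((arc 0 G (M ^ m₂) r).card : ℝ) ^ 11 ≤ B ^ 2 * X * (10 * (N : ℝ) ^ 2) ^ 11 := by gcongr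
          _ = B ^ 2 * (10 ^ 11 * (N : ℝ) ^ 10) * (X * (N : ℝ) ^ 12) := by ring
          _ ≤ B ^ 2 * (10 ^ 11 * K₁ ^ 10) * FR X N := by
              refine mul_le_mul ?_ hF.2 (by positivity) (by positivity)
              gcongr
      have h5 : (1 : ENNReal) = ENNReal.ofReal 1 := ENNReal.ofReal_one.symm
      rw [h5]
      refine (add_le_add_left (h2.trans (ENNReal.ofReal_le_ofReal h4)) _).trans ?_
      have hF0 : 0 ≤ FR X N := by linarith [hF.1]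
      rw [← ENNReal.ofReal_add (by positivity) (by norm_num)]
      refine ENNReal.ofReal_le_ofReal ?_
      have := hF.1
      linarith
    have h6 : SS e B X G (M ^ m₂) (Finset.range (M ^ m₂)) ≤ ((24 : ENNReal) * ENNReal.ofReal ((B ^ 2 * (10 ^ 11 * K₁ ^ 10) + 1) * FR X N) ^ (1 / 6 : ℝ)) ^ (6 : ℝ) := by
      unfold SS
      refine ENNReal.rpow_le_rpow ?_ (by norm_num)
      refine (Finset.sum_le_sum h1).trans ?_
      rw [Finset.sum_const, Finset.card_range, nsmul_eq_mul]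
      refine mul_le_mul_left ?_ _
      have h7 : M ^ m₂ < 24 := by exact_mod_cast hsm
      exact_mod_cast h7.le
    refine h6.trans ?_
    rw [ENNReal.mul_rpow_of_nonneg _ _ (by norm_num : (0 : ℝ) ≤ 6), rpow6_root']
    have h8 : (24 : ENNReal) ^ (6 : ℝ) = ENNReal.ofReal (24 ^ 6) := by
      have h5 : (6 : ℝ) = ((6 : ℕ) : ℝ) := by norm_num
      rw [h5, ENNReal.rpow_natCast, ENNReal.ofReal_pow (by norm_num)]
      norm_num
    rw [h8, ← ENNReal.ofReal_mul (by positivity)]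
    refine ENNReal.ofReal_le_ofReal ?_
    have hF0 : 0 ≤ FR X N := by linarith [hF.1]
    have hC0 : 0 ≤ C := hC₅0.trans hCC5
    calc 24 ^ 6 * ((B ^ 2 * (10 ^ 11 * K₁ ^ 10) + 1) * FR X N) = C₅ * 1 * FR X N := by rw [hC₅]; ring
      _ ≤ C * X ^ η * FR X N := by gcongr
  -- the main case
  push Not at hsm
  obtain ⟨D, hD⟩ : ∃ D : ℝ, D = √((M : ℝ) ^ m₂ / 24) := ⟨_, rfl⟩
  have hD2 : 24 * D ^ 2 = (M : ℝ) ^ m₂ := by
    rw [hD, sq_sqrt (by positivity)]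
    field_simp
  have hD1 : 1 ≤ D := by
    rw [hD]
    refine one_le_sqrt.2 ?_
    rw [one_le_div (by norm_num)]
    exact hsm
  have hDM : D ≤ (M : ℝ) ^ m₂ := by
    rw [← hD2]
    nlinarith
  obtain ⟨J, hJ⟩ : ∃ J : ℕ, J = Nat.log 2 (M ^ m₂) + 1 := ⟨_, rfl⟩
  have hMn0 : M ^ m₂ ≠ 0 := (Nat.pow_pos (by omega)).ne'
  have hJlt : ∀ j : ℕ, (2 : ℝ) ^ j ≤ (M : ℝ) ^ m₂ → j < J := by
    intro j hj
    have h1 : 2 ^ j ≤ M ^ m₂ := by exact_mod_cast hj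
    have h2 : j ≤ Nat.log 2 (M ^ m₂) := Nat.le_log_of_pow_le (by norm_num) h1
    omega
  have hXN : X * N ≤ X ^ 2 := by
    have h1 : (N : ℝ) ≤ X := by
      refine hP.hi.trans ?_
      calc X ^ (4 / 9 + 1 / 1000 : ℝ) ≤ X ^ (1 : ℝ) := rpow_le_rpow_of_exponent_le hX (by norm_num)
        _ = X := rpow_one X
    nlinarith
  have hMX : (M : ℝ) ^ m₂ ≤ X ^ 2 := by
    refine le_trans ?_ (hk1.trans hXN)
    exact le_self_pow₀ hM21 (by norm_num)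
  have hJle : (J : ℝ) ≤ 1 + 4 * log X := by
    have h1 : (2 : ℝ) ^ (Nat.log 2 (M ^ m₂)) ≤ X ^ 2 := by
      refine le_trans ?_ hMX
      have := Nat.pow_log_le_self 2 hMn0
      exact_mod_cast this
    have h2 := log_le_log (by positivity) h1
    rw [log_pow, log_pow] at h2
    have h3 : (1 : ℝ) / 2 ≤ log 2 := by
      have := Real.log_two_gt_d9
      linarith
    have h4 : (Nat.log 2 (M ^ m₂) : ℝ) * (1 / 2) ≤ (Nat.log 2 (M ^ m₂) : ℝ) * log 2 := mul_le_mul_of_nonneg_left h3 (Nat.cast_nonneg _)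
    rw [hJ]
    push_cast at h2 ⊢
    linarith
  -- the classes
  obtain ⟨PI, hPI⟩ : ∃ PI : ℕ → Finset ℕ, ∀ i, PI i = (Finset.range (M ^ m₂)).filter (fun r => |ctr (M ^ m₂) r - ctr (M ^ m₀) r₀| ≤ 12 / (M ^ m₀ : ℕ) ∧
      ∃ n : ℤ × ℤ, Pr n ∧ (2 : ℝ) ^ i ≤ n.1 ∧ (n.1 : ℝ) ≤ 2 * 2 ^ i ∧ 24 * (n.1 : ℝ) ^ 2 ≤ (M : ℝ) ^ m₂ ∧ |sp n - ctr (M ^ m₂) r| ≤ 24 / (M ^ m₂ : ℕ)) := ⟨_, fun _ => rfl⟩
  obtain ⟨PJ, hPJ⟩ : ∃ PJ : ℕ → Finset ℕ, ∀ i, PJ i = (Finset.range (M ^ m₂)).filter (fun r => D ≤ 2 * 2 ^ i ∧ (|ctr (M ^ m₂) r - ctr (M ^ m₀) r₀| ≤ 12 / (M ^ m₀ : ℕ) ∧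
      (∀ n : ℤ × ℤ, Pr n → (n.1 : ℝ) ≤ D → 24 / (M ^ m₂ : ℕ) < |sp n - ctr (M ^ m₂) r|) ∧
      ∃ n : ℤ × ℤ, Pr n ∧ (n.1 : ℝ) ≤ D ∧ 2 ^ i * ((n.1 : ℝ) * |sp n - ctr (M ^ m₂) r|) ≤ 1 ∧ 1 ≤ 2 * 2 ^ i * ((n.1 : ℝ) * |sp n - ctr (M ^ m₂) r|))) := ⟨_, fun _ => rfl⟩
  obtain ⟨PE, hPE⟩ : ∃ PE : Finset ℕ, PE = (Finset.range (M ^ m₂)).filter (fun r => arc 0 G (M ^ m₂) r = ∅) := ⟨_, rfl⟩
  obtain ⟨P, hPd⟩ : ∃ P : ℕ × ℕ → Finset ℕ, ∀ i, P i = if i.1 = 0 then PI i.2 else if i.1 = 1 then PJ i.2 else PE := ⟨_, fun _ => rfl⟩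
  have hcov : ∀ r ∈ Finset.range (M ^ m₂), ∃ i ∈ Finset.range 3 ×ˢ Finset.range J, r ∈ P i := by
    intro r hr
    by_cases hem : arc 0 G (M ^ m₂) r = ∅
    · refine ⟨(2, 0), ?_, ?_⟩
      · rw [Finset.mem_product, Finset.mem_range, Finset.mem_range]
        exact ⟨by norm_num, by simp only; omega⟩
      · rw [hPd]
        simp only [OfNat.ofNat_ne_zero, OfNat.ofNat_ne_one, if_false]
        rw [hPE, Finset.mem_filter]
        exact ⟨hr, hem⟩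
    obtain ⟨k, hk⟩ := Finset.nonempty_of_ne_empty hem
    have hkG : k ∈ G := Finset.filter_subset _ _ hk
    have hM2n : 1 ≤ M ^ m₂ := Nat.one_le_iff_ne_zero.2 hMn0
    have hM0n : 1 ≤ M ^ m₀ := Nat.one_le_pow _ _ (by omega)
    have h1 := arc_near hM2n hGs hk
    have h2 : |tt 0 k - ctr (M ^ m₀) r₀| ≤ 6 / (M ^ m₀ : ℕ) := by
      rw [hG] at hkG
      exact arc_near hM0n (Finset.Subset.refl _) hkG
    have hctr : |ctr (M ^ m₂) r - ctr (M ^ m₀) r₀| ≤ 12 / (M ^ m₀ : ℕ) := by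
      have h3 : ((M ^ m₀ : ℕ) : ℝ) ≤ ((M ^ m₂ : ℕ) : ℝ) := by
        exact_mod_cast Nat.pow_le_pow_right (by omega) hP.m
      have h4 : (0 : ℝ) < ((M ^ m₀ : ℕ) : ℝ) := by exact_mod_cast hM0n
      have h5 : 6 / ((M ^ m₂ : ℕ) : ℝ) ≤ 6 / ((M ^ m₀ : ℕ) : ℝ) := div_le_div_of_nonneg_left (by norm_num) h4 h3
      have h6 : |ctr (M ^ m₂) r - ctr (M ^ m₀) r₀| ≤ |tt 0 k - ctr (M ^ m₂) r| + |tt 0 k - ctr (M ^ m₀) r₀| := by
        have h7 : ctr (M ^ m₂) r - ctr (M ^ m₀) r₀ = -(tt 0 k - ctr (M ^ m₂) r) + (tt 0 k - ctr (M ^ m₀) r₀) := by ring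
        rw [h7]
        refine (abs_add_le _ _).trans ?_
        rw [abs_neg]
      have h8 : 12 / ((M ^ m₀ : ℕ) : ℝ) = 6 / ((M ^ m₀ : ℕ) : ℝ) + 6 / ((M ^ m₀ : ℕ) : ℝ) := by ring
      rw [h8]
      linarith
    have hw : (0 : ℝ) < 24 / ((M ^ m₂ : ℕ) : ℝ) := by
      have : (0 : ℝ) < ((M ^ m₂ : ℕ) : ℝ) := by exact_mod_cast hM2n
      positivity
    rcases classify (τ := ctr (M ^ m₂) r) hD1 hw with ⟨n, hn, hnD, hnt⟩ | ⟨hall, j, n, hn, hnD, hnw, hDj, hq1, hq2⟩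
    · -- type I
      have hn1 : 0 < n.1 := hn.2
      have hnN : ((n.1.toNat : ℕ) : ℝ) = (n.1 : ℝ) := by
        have h3 : ((n.1.toNat : ℕ) : ℤ) = n.1 := Int.toNat_of_nonneg hn1.le
        exact_mod_cast congrArg (fun z : ℤ => (z : ℝ)) h3
      have hn0 : n.1.toNat ≠ 0 := by omega
      have a1 : (2 : ℝ) ^ (Nat.log 2 n.1.toNat) ≤ n.1 := by
        rw [← hnN]
        exact_mod_cast Nat.pow_log_le_self 2 hn0
      have a2 : (n.1 : ℝ) ≤ 2 * 2 ^ (Nat.log 2 n.1.toNat) := by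
        rw [← hnN]
        have h3 := (Nat.lt_pow_succ_log_self (by norm_num : 1 < 2) n.1.toNat).le
        have h4 : ((n.1.toNat : ℕ) : ℝ) ≤ (2 : ℝ) ^ (Nat.log 2 n.1.toNat).succ := by exact_mod_cast h3
        rw [pow_succ] at h4
        linarith
      refine ⟨(0, Nat.log 2 n.1.toNat), ?_, ?_⟩
      · rw [Finset.mem_product, Finset.mem_range, Finset.mem_range]
        exact ⟨by norm_num, hJlt _ (a1.trans (hnD.trans hDM))⟩
      · rw [hPd]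
        simp only [if_true]
        rw [hPI, Finset.mem_filter]
        refine ⟨hr, hctr, n, hn, a1, a2, ?_, hnt⟩
        rw [← hD2]
        have hn1r : (0 : ℝ) < n.1 := by exact_mod_cast hn1
        have : (n.1 : ℝ) ^ 2 ≤ D ^ 2 := pow_le_pow_left₀ hn1r.le hnD 2
        linarith
    · refine ⟨(1, j), ?_, ?_⟩
      · rw [Finset.mem_product, Finset.mem_range, Finset.mem_range]
        refine ⟨by norm_num, hJlt _ ?_⟩
        have hn1r : (1 : ℝ) ≤ n.1 := by exact_mod_cast hn.2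
        have h3 : (24 : ℝ) / ((M ^ m₂ : ℕ) : ℝ) ≤ (n.1 : ℝ) * |sp n - ctr (M ^ m₂) r| := by nlinarith [abs_nonneg (sp n - ctr (M ^ m₂) r)]
        have h4 : (2 : ℝ) ^ j * (24 / ((M ^ m₂ : ℕ) : ℝ)) ≤ 1 := (mul_le_mul_of_nonneg_left h3 (by positivity)).trans hq1
        push_cast at h4
        rw [mul_div_assoc', div_le_one hMm2] at h4
        have : (0 : ℝ) ≤ 2 ^ j := by positivity
        linarith
      · rw [hPd]
        simp only [one_ne_zero, if_false, if_true]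
        rw [hPJ, Finset.mem_filter]
        refine ⟨hr, ?_, hctr, hall, n, hn, hnD, hq1, hq2⟩
        rw [pow_succ] at hDj
        linarith
  -- the bound of each class
  have hF0 : 0 ≤ FR X N := by linarith [hF.1]
  have hSe : SS e B X G (M ^ m₂) ∅ = 0 := by
    unfold SS
    rw [Finset.sum_empty, ENNReal.zero_rpow_of_pos (by norm_num)]
  have hcl : ∀ i ∈ Finset.range 3 ×ˢ Finset.range J, SS e B X G (M ^ m₂) (P i) ≤ ENNReal.ofReal ((C₁ + C₂ + C₃) * X ^ (η / 2) * FR X N) := by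
    intro i _
    rw [hPd]
    by_cases h0 : i.1 = 0
    · rw [if_pos h0]
      by_cases hne : PI i.2 = ∅
      · rw [hne, hSe]
        exact zero_le
      obtain ⟨r, hr⟩ := Finset.nonempty_of_ne_empty hne
      rw [hPI, Finset.mem_filter] at hr
      obtain ⟨-, -, n, hn, b1, b2, b3, -⟩ := hr
      have hA1 : (1 : ℝ) ≤ 2 ^ i.2 := one_le_pow₀ (by norm_num)
      have hA2 : 24 * ((2 : ℝ) ^ i.2) ^ 2 ≤ (M : ℝ) ^ m₂ := by
        have : ((2 : ℝ) ^ i.2) ^ 2 ≤ (n.1 : ℝ) ^ 2 := pow_le_pow_left₀ (by positivity) b1 2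
        linarith
      have h3 := hI X σ (2 ^ i.2) N m₀ m₂ r₀ (PI i.2) hP hA1 hA2 (by rw [hPI]; exact Finset.filter_subset _ _) (by
        intro r hr
        rw [hPI, Finset.mem_filter] at hr
        exact hr.2)
      rw [hG]
      refine h3.trans (ENNReal.ofReal_le_ofReal ?_)
      gcongr
      linarith
    rw [if_neg h0]
    by_cases h1 : i.1 = 1
    · rw [if_pos h1]
      by_cases hne : PJ i.2 = ∅
      · rw [hne, hSe]
        exact zero_le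
      obtain ⟨r, hr⟩ := Finset.nonempty_of_ne_empty hne
      rw [hPJ, Finset.mem_filter] at hr
      obtain ⟨-, hDQ, -⟩ := hr
      have h3 := hII X σ D (2 ^ i.2) N m₀ m₂ r₀ (PJ i.2) hP hD1 hD2 hDQ (by rw [hPJ]; exact Finset.filter_subset _ _) (by
        intro r hr
        rw [hPJ, Finset.mem_filter] at hr
        exact hr.2.2)
      rw [hG]
      refine h3.trans (ENNReal.ofReal_le_ofReal ?_)
      gcongr
      linarith
    rw [if_neg h1]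
    -- the empty arcs
    have h3 : SS e B X G (M ^ m₂) PE ≤ ENNReal.ofReal (((M : ℝ) ^ m₂) ^ 6) := by
      unfold SS
      have h4 : ∑ r ∈ PE, (RI e B X (arc 0 G (M ^ m₂) r) + 1) ^ (1 / 6 : ℝ) = (PE.card : ENNReal) := by
        have h5 : ∀ r ∈ PE, (RI e B X (arc 0 G (M ^ m₂) r) + 1) ^ (1 / 6 : ℝ) = 1 := by
          intro r hr
          rw [hPE, Finset.mem_filter] at hr
          rw [hr.2, RI_empty, zero_add, ENNReal.one_rpow]
        rw [Finset.sum_congr rfl h5, Finset.sum_const, nsmul_eq_mul, mul_one]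
      rw [h4]
      have h5 : (PE.card : ℝ) ≤ (M : ℝ) ^ m₂ := by
        have h6 : PE.card ≤ M ^ m₂ := by
          rw [hPE]
          exact (Finset.card_filter_le _ _).trans (Finset.card_range _).le
        exact_mod_cast h6
      have h7 : (6 : ℝ) = ((6 : ℕ) : ℝ) := by norm_num
      rw [h7, ENNReal.rpow_natCast, ← ENNReal.ofReal_natCast, ← ENNReal.ofReal_pow (Nat.cast_nonneg _)]
      exact ENNReal.ofReal_le_ofReal (pow_le_pow_left₀ (Nat.cast_nonneg _) h5 6)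
    refine h3.trans (ENNReal.ofReal_le_ofReal ?_)
    have hw4 : (12 / (M : ℝ) ^ m₂) ^ 4 * (X * N) = 12 ^ 4 * ((X * N) / ((M : ℝ) ^ m₂) ^ 4) := by
      rw [div_pow]
      ring
    have hw1 : 1 ≤ (X * N) / ((M : ℝ) ^ m₂) ^ 4 := by
      rw [one_le_div (by positivity)]
      exact hk1
    have hw2 : (X * N) / ((M : ℝ) ^ m₂) ^ 4 ≤ (M : ℝ) ^ 4 := by
      rw [div_le_iff₀ (by positivity), ← hM22, ← pow_add]
      refine hk2.le.trans (le_of_eq ?_)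
      congr 1
      ring
    have h4 := (hnum X N (12 / (M : ℝ) ^ m₂) 1 hX hNr hP.hi one_pos (by
      rw [hw4]
      have h5 : (1 : ℝ) ≤ 12 ^ 4 * ((X * N) / ((M : ℝ) ^ m₂) ^ 4) := one_le_mul_of_one_le_of_one_le (by norm_num) hw1
      exact one_le_mul_of_one_le_of_one_le hb1 h5) (by
      rw [hw4]
      exact mul_le_mul_of_nonneg_left hw2 (by norm_num)) (by positivity) (by
      have h5 : 12 / (M : ℝ) ^ m₂ ≤ 12 := div_le_self (by norm_num) hM21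
      have h6 : (1 : ℝ) ≤ (M : ℝ) ^ 4 := one_le_pow₀ hM1
      linarith)).2.2.2.2.1 hP.lo
    have h5 : ((M : ℝ) ^ m₂) ^ 6 ≤ (X * N) ^ (3 / 2 : ℝ) := by
      have h6 : ((M : ℝ) ^ m₂) ^ 6 = (((M : ℝ) ^ m₂) ^ 4) ^ (3 / 2 : ℝ) := by
        rw [← rpow_natCast _ 4, ← rpow_natCast _ 6, ← rpow_mul hMm2.le]
        congr 1
        norm_num
      rw [h6]
      exact rpow_le_rpow (by positivity) hk1 (by norm_num)
    refine h5.trans (h4.trans ?_)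
    calc C₃ * FR X N = C₃ * 1 * FR X N := by ring
      _ ≤ (C₁ + C₂ + C₃) * X ^ (η / 2) * FR X N := by
          gcongr
          linarith
  refine (ss_cover e B X G (M ^ m₂) _ P _ hcov hcl).trans ?_
  rw [← ENNReal.ofReal_mul (by positivity)]
  refine ENNReal.ofReal_le_ofReal ?_
  rw [Finset.card_product, Finset.card_range, Finset.card_range]
  have h1 := hlog X J hX hJle
  calc ((3 * J : ℕ) : ℝ) ^ 6 * ((C₁ + C₂ + C₃) * X ^ (η / 2) * FR X N)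
      ≤ (C₄ * X ^ (η / 2)) * ((C₁ + C₂ + C₃) * X ^ (η / 2) * FR X N) := mul_le_mul_of_nonneg_right h1 (by positivity)
    _ = (C₄ * (C₁ + C₂ + C₃)) * (X ^ (η / 2) * X ^ (η / 2)) * FR X N := by ring
    _ = (C₄ * (C₁ + C₂ + C₃)) * X ^ η * FR X N := by
        rw [← rpow_add hX0]
        congr 3
        ring
    _ ≤ C * X ^ η * FR X N := by gcongr

/-- E1: a good sector -/
theorem local_bd {e : Fr} (he : 0 < df e) {η ε₀ B : ℝ} (hη : 0 < η) (hε₀ : 0 < ε₀) (hB : 1 ≤ B) : ∃ (M : ℕ) (C : ℝ), 2 ≤ M ∧ 1 ≤ C ∧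
    ∀ (X σ : ℝ) (N m₀ m₂ r₀ : ℕ), Par e M ε₀ X σ N m₀ m₂ r₀ → RI e B X (arc 0 (cn N) (M ^ m₀) r₀) ≤ ENNReal.ofReal (C * X ^ η * FR X N) := by
  obtain ⟨M, C₁, B', hM, hC₁, hB', hit⟩ := iterR he (η := η / 12) (by positivity) hε₀ hB (by norm_num : (1 : ℝ) ≤ 4) fun ε hε => by
    obtain ⟨M, hM, C₀, hC₀, hd⟩ := dec12_all (by norm_num : (1 : ℝ) ≤ 2) ε hε
    exact ⟨M, hM, fun n B hB => stepR he (by norm_num) (by norm_num) hB hM hC₀ hd n⟩
  obtain ⟨C₂, hC₂, hcl⟩ := classes he (η := η / 2) (by positivity) hε₀ (hB.trans hB') hM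
  refine ⟨M, C₁ ^ 6 * C₂, hM, one_le_mul_of_one_le_of_one_le (one_le_pow₀ hC₁) hC₂, ?_⟩
  intro X σ N m₀ m₂ r₀ hP
  have hX := hP.X1
  have hX0 : 0 < X := by linarith
  have hN := hP.N1
  have hNr : (1 : ℝ) ≤ N := by exact_mod_cast hN
  have hNX : (N : ℝ) ≤ X := by
    refine hP.hi.trans ?_
    calc X ^ (4 / 9 + 1 / 1000 : ℝ) ≤ X ^ (1 : ℝ) := rpow_le_rpow_of_exponent_le hX (by norm_num)
      _ = X := rpow_one X
  have h1 := hit X N σ (cn N) m₀ m₂ r₀ hX hNr hNX (cn_cone hN).1 hP.σ0 hP.gd hP.m hP.σm hP.k1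
  have h2 := hcl X σ N m₀ m₂ r₀ hP
  have h3 := ENNReal.rpow_le_rpow h1 (by norm_num : (0 : ℝ) ≤ 6)
  rw [rpow6_root', ENNReal.mul_rpow_of_nonneg _ _ (by norm_num : (0 : ℝ) ≤ 6)] at h3
  refine h3.trans ?_
  change _ * SS e B' X (arc 0 (cn N) (M ^ m₀) r₀) (M ^ m₂) (Finset.range (M ^ m₂)) ≤ _
  refine (mul_le_mul_right h2 _).trans ?_
  have h4 : (6 : ℝ) = ((6 : ℕ) : ℝ) := by norm_num
  have hF := FR_pos hX hNr
  have hF0 : 0 ≤ FR X N := by linarith [hF.1]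
  rw [h4, ENNReal.rpow_natCast, ← ENNReal.ofReal_pow (by positivity), ← ENNReal.ofReal_mul (by positivity)]
  refine ENNReal.ofReal_le_ofReal (le_of_eq ?_)
  have h5 : (X ^ (η / 12)) ^ 6 = X ^ (η / 2) := by
    rw [← rpow_natCast, ← rpow_mul hX0.le]
    congr 1
    push_cast
    ring
  have h6 : X ^ η = X ^ (η / 2) * X ^ (η / 2) := by
    rw [← rpow_add hX0]
    congr 1
    ring
  rw [mul_pow, h5, h6]
  ring

end Pool.Agent.Helper60.RT
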