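import Pool.Agent.Helper60.RT.Defs2
import Pool.Agent.Helper92.GC.T1
import Pool.Agent.Helper92.GC.Q2

/-!
# RT-Q1 (after helper79's QL-M6): the sixth moment of a sector for a fixed frame
-/

open MeasureTheory Real Set Filter Topology

set_option autoImplicit false

namespace Pool.Agent.Helper60.RT

open Pool.Agent.Helper22.AE
open Pool.Agent.Helper92.GC (dt tp Tq uu tt arc gs dd m6)
open Pool.Agent.Helper22.AC (n6 IsWt mu)
open Pool.Agent.Helper60.LT (Fr Tf xf yf df vf fr)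
open Pool.Agent.Helper60.QL (nm Cone)
open Pool.Agent.Helper78.CG (Crv6)

private theorem q6_cub {ι : Type} (s : Finset ι) (f g : ι → ℝ) (hf : ∀ i ∈ s, 0 ≤ f i) (hg : ∀ i ∈ s, 0 ≤ g i) :
    (∑ i ∈ s, f i ^ 2 * g i) ^ 3 ≤ (∑ i ∈ s, f i ^ 3) ^ 2 * ∑ i ∈ s, g i ^ 3 := by
  have hpq : (3 / 2 : ℝ).HolderConjugate 3 := by
    rw [Real.holderConjugate_iff]
    norm_num
  have h1 := Real.inner_le_Lp_mul_Lq_of_nonneg s hpq (f := fun i => f i ^ 2) (g := g) (fun i hi => by positivity) hg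
  have e1 : ∑ i ∈ s, (f i ^ 2) ^ (3 / 2 : ℝ) = ∑ i ∈ s, f i ^ 3 := by
    refine Finset.sum_congr rfl fun i hi => ?_
    rw [← rpow_natCast, ← rpow_mul (hf i hi), ← rpow_natCast]
    norm_num
  have e2 : ∑ i ∈ s, g i ^ (3 : ℝ) = ∑ i ∈ s, g i ^ 3 := by
    refine Finset.sum_congr rfl fun i _ => ?_
    rw [← rpow_natCast]
    norm_num
  rw [e1, e2] at h1
  have hF : 0 ≤ ∑ i ∈ s, f i ^ 3 := Finset.sum_nonneg fun i hi => pow_nonneg (hf i hi) 3
  have hG : 0 ≤ ∑ i ∈ s, g i ^ 3 := Finset.sum_nonneg fun i hi => pow_nonneg (hg i hi) 3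
  have h0 : 0 ≤ ∑ i ∈ s, f i ^ 2 * g i := Finset.sum_nonneg fun i hi => mul_nonneg (by positivity) (hg i hi)
  refine (pow_le_pow_left₀ h0 h1 3).trans (le_of_eq ?_)
  rw [mul_pow, ← rpow_natCast, ← rpow_mul hF, ← rpow_natCast, ← rpow_mul hG]
  norm_num

private theorem q6_hold1 (N : ℕ) (x : ℕ → ℝ) (hx : ∀ i, 0 ≤ x i) :
    (∑ i ∈ Finset.range N, x i ^ (5 / 3 : ℝ)) ^ 3 ≤ (∑ i ∈ Finset.range N, x i ^ 2) ^ 2 * ∑ i ∈ Finset.range N, x i := by
  have h := q6_cub (Finset.range N) (fun i => x i ^ (2 / 3 : ℝ)) (fun i => x i ^ (1 / 3 : ℝ))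
    (fun i _ => rpow_nonneg (hx i) _) (fun i _ => rpow_nonneg (hx i) _)
  have e1 : ∀ i ∈ Finset.range N, (x i ^ (2 / 3 : ℝ)) ^ 2 * x i ^ (1 / 3 : ℝ) = x i ^ (5 / 3 : ℝ) := by
    intro i _
    rw [← rpow_natCast, ← rpow_mul (hx i), ← rpow_add_of_nonneg (hx i) (by norm_num) (by norm_num)]
    norm_num
  have e2 : ∀ i ∈ Finset.range N, (x i ^ (2 / 3 : ℝ)) ^ 3 = x i ^ 2 := by
    intro i _
    rw [← rpow_natCast, ← rpow_mul (hx i), ← rpow_natCast]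
    norm_num
  have e3 : ∀ i ∈ Finset.range N, (x i ^ (1 / 3 : ℝ)) ^ 3 = x i := by
    intro i _
    rw [← rpow_natCast, ← rpow_mul (hx i)]
    norm_num
  rw [Finset.sum_congr rfl e1, Finset.sum_congr rfl e2, Finset.sum_congr rfl e3] at h
  exact h

private theorem q6_arc_sub {β : ℝ} {S : Finset (ℤ × ℤ)} {N j : ℕ} : arc β S N j ⊆ S := by
  classical
  unfold arc
  exact Finset.filter_subset _ _

private theorem q6_dd {β U δ : ℝ} {k k' : ℤ × ℤ} (hk : 0 < uu β k) (hk' : 0 < uu β k') (hU : uu β k ≤ U) (hU' : uu β k' ≤ U)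
    (ht : |tt β k' - tt β k| ≤ δ) : |((dd k k' : ℤ) : ℝ)| ≤ U ^ 2 * δ := by
  have e1 : (k.2 : ℝ) = tt β k * uu β k := by
    unfold tt
    rw [div_mul_cancel₀ _ hk.ne']
  have e1' : (k'.2 : ℝ) = tt β k' * uu β k' := by
    unfold tt
    rw [div_mul_cancel₀ _ hk'.ne']
  have e2 : (k.1 : ℝ) = uu β k - β * k.2 := by
    unfold uu
    ring
  have e2' : (k'.1 : ℝ) = uu β k' - β * k'.2 := by
    unfold uu
    ring
  have e : ((dd k k' : ℤ) : ℝ) = uu β k * uu β k' * (tt β k' - tt β k) := by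
    unfold dd
    push_cast
    rw [e2, e2']
    have : (uu β k - β * (k.2 : ℝ)) * (k'.2 : ℝ) - (k.2 : ℝ) * (uu β k' - β * (k'.2 : ℝ)) =
      uu β k * (k'.2 : ℝ) - (k.2 : ℝ) * uu β k' := by ring
    rw [this, e1, e1']
    ring
  rw [e, abs_mul, abs_mul, abs_of_pos hk, abs_of_pos hk']
  have hU0 : 0 ≤ U := hk.le.trans hU
  have h1 : uu β k * uu β k' ≤ U * U := mul_le_mul hU hU' hk'.le hU0
  calc uu β k * uu β k' * |tt β k' - tt β k| ≤ (U * U) * δ := mul_le_mul h1 ht (abs_nonneg _) (by positivity)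
    _ = _ := by ring

private theorem q6_arc {β : ℝ} {S : Finset (ℤ × ℤ)} {N j : ℕ} (hN : 1 ≤ N) (hS : ∀ k ∈ S, |tt β k| ≤ 5) {k k' : ℤ × ℤ}
    (hk : k ∈ arc β S N j) (hk' : k' ∈ arc β S N j) : |tt β k' - tt β k| ≤ 12 / N := by
  classical
  unfold arc at hk hk'
  rw [Finset.mem_filter] at hk hk'
  have hN0 : (0 : ℝ) < N := by exact_mod_cast hN
  have a1 := (abs_le.1 (hS k hk.1)).1
  have a2 := (abs_le.1 (hS k' hk'.1)).1
  have f1 := (Nat.floor_eq_iff (by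
    have : 0 ≤ (tt β k + 6) / 12 := by linarith
    positivity)).1 hk.2
  have f2 := (Nat.floor_eq_iff (by
    have : 0 ≤ (tt β k' + 6) / 12 := by linarith
    positivity)).1 hk'.2
  have h7 : |tt β k' - tt β k| * N = |(tt β k' - tt β k) * N| := by rw [abs_mul, abs_of_pos hN0]
  rw [le_div_iff₀ hN0, h7, abs_le]
  constructor <;> linarith [f1.1, f1.2, f2.1, f2.2]

private theorem q6_disj {β : ℝ} {S : Finset (ℤ × ℤ)} {N : ℕ} (F : ℕ → Finset ((ℤ × ℤ) × (ℤ × ℤ))) {T : ℝ}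
    (hF : ∀ j, F j ⊆ arc β S N j ×ˢ arc β S N j) (hT : ∀ j, ∀ q ∈ F j, |((dd q.1 q.2 : ℤ) : ℝ)| ≤ T) :
    ∑ j ∈ Finset.range N, ((F j).card : ℝ) ≤ ((prs S T).card : ℝ) := by
  classical
  have h4 : ((Finset.range N).biUnion F).card = ∑ j ∈ Finset.range N, (F j).card := by
    refine Finset.card_biUnion fun i _ j _ hij => ?_
    refine Finset.disjoint_left.2 ?_
    rintro ⟨k, k'⟩ h5 h6
    have h7 := (Finset.mem_product.1 (hF _ h5)).1
    have h8 := (Finset.mem_product.1 (hF _ h6)).1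
    unfold arc at h7 h8
    rw [Finset.mem_filter] at h7 h8
    exact hij (h7.2.symm.trans h8.2)
  have h5 : ((Finset.range N).biUnion F) ⊆ prs S T := by
    intro q hq
    rw [Finset.mem_biUnion] at hq
    obtain ⟨j, -, hj⟩ := hq
    have h7 := (Finset.mem_product.1 (hF _ hj)).1
    have h8 := (Finset.mem_product.1 (hF _ hj)).2
    unfold prs
    rw [Finset.mem_filter]
    exact ⟨Finset.mem_product.2 ⟨q6_arc_sub h7, q6_arc_sub h8⟩, hT j q hj⟩
  have h6 := Finset.card_le_card h5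
  rw [h4] at h6
  exact_mod_cast h6

private theorem q6_sum {β : ℝ} {S : Finset (ℤ × ℤ)} {N : ℕ} : ∑ j ∈ Finset.range N, ((arc β S N j).card : ℝ) ≤ (S.card : ℝ) := by
  classical
  have h4 : ((Finset.range N).biUnion (fun j => arc β S N j)).card = ∑ j ∈ Finset.range N, (arc β S N j).card := by
    refine Finset.card_biUnion fun i _ j _ hij => ?_
    refine Finset.disjoint_left.2 ?_
    intro k h5 h6
    unfold arc at h5 h6
    rw [Finset.mem_filter] at h5 h6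
    exact hij (h5.2.symm.trans h6.2)
  have h5 : ((Finset.range N).biUnion (fun j => arc β S N j)) ⊆ S := by
    intro q hq
    rw [Finset.mem_biUnion] at hq
    obtain ⟨j, -, hj⟩ := hq
    exact q6_arc_sub hj
  have h6 := Finset.card_le_card h5
  rw [h4] at h6
  exact_mod_cast h6

/-- the squares of the arcs -/
private theorem q6_sq {β U : ℝ} {S : Finset (ℤ × ℤ)} {N : ℕ} (hN : 1 ≤ N) (hS : ∀ k ∈ S, 0 < uu β k ∧ uu β k ≤ U ∧ |tt β k| ≤ 5) :
    ∑ j ∈ Finset.range N, ((arc β S N j).card : ℝ) ^ 2 ≤ ((prs S (U ^ 2 * (12 / N))).card : ℝ) := by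
  have h7 : ∑ j ∈ Finset.range N, ((arc β S N j).card : ℝ) ^ 2 =
      ∑ j ∈ Finset.range N, ((arc β S N j ×ˢ arc β S N j).card : ℝ) := by
    refine Finset.sum_congr rfl fun j _ => ?_
    rw [Finset.card_product]
    push_cast
    ring
  rw [h7]
  refine q6_disj (fun j => arc β S N j ×ˢ arc β S N j) (fun j => Finset.Subset.refl _) ?_
  intro j q hq
  have h1 := (Finset.mem_product.1 hq).1
  have h2 := (Finset.mem_product.1 hq).2
  have h3 := hS _ (q6_arc_sub h1)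
  have h4 := hS _ (q6_arc_sub h2)
  exact q6_dd h3.1 h4.1 h3.2.1 h4.2.1 (q6_arc hN (fun k hk => (hS k hk).2.2) h1 h2)

private theorem q6P_mono {S : Finset (ℤ × ℤ)} {D D' : ℝ} (h : D ≤ D') : ((prs S D).card : ℝ) ≤ ((prs S D').card : ℝ) := by
  classical
  have : prs S D ⊆ prs S D' := by
    intro q hq
    unfold prs at hq ⊢
    rw [Finset.mem_filter] at hq ⊢
    exact ⟨hq.1, hq.2.trans h⟩
  exact_mod_cast Finset.card_le_card this

open Classical in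
private theorem q6_six {ε c₁ C₀ lam : ℝ} (hε : 0 < ε) (hc : 0 < c₁) (hl : 1 ≤ lam) : ∃ C : ℝ, 1 ≤ C ∧
    ∀ (q : ℝ → ℝ) (x₀ ρ H X₁ : ℝ) (v : ℝ → ℝ) (a : ℤ × ℤ → ℂ) (A : Finset (ℤ × ℤ)), Crv6 c₁ C₀ ρ q → (∀ k, ‖a k‖ ≤ 1) → 0 < ρ → ρ ≤ 5 →
      1 ≤ H → 0 < X₁ → IsWt X₁ v → (∀ k ∈ A, H / lam ≤ uu x₀ k ∧ uu x₀ k ≤ lam * H ∧ |tt x₀ k| ≤ ρ) →
      n6 (mu v) (gs A a (Pool.Agent.Helper78.CG.ff x₀ q)) ^ 3 ≤ C * H ^ ε * (A.card : ℝ) *
        (((A ×ˢ A).filter (fun z => |((dd z.1 z.2 : ℤ) : ℝ)| ≤ C * (1 + H ^ 2 / √(H * X₁)))).card : ℝ) ^ 2 := by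
  classical
  obtain ⟨M, hM, C', hC', h6⟩ := Pool.Agent.Helper78.CG.dec6 (ε := ε / 6) (c := c₁) (C₀ := C₀) (lam := lam) (by positivity) hc hl
  have hM0 : (1 : ℝ) < M := by exact_mod_cast (by omega : 1 < M)
  have hC0 : 0 < C' := by linarith
  have hsC : 1 ≤ √C' := by rw [one_le_sqrt]; exact hC'
  obtain ⟨K, hK⟩ : ∃ K : ℝ, K = 12 * M * lam ^ 2 * (1 + √C') := ⟨_, rfl⟩
  have hl2 : 1 ≤ lam ^ 2 := one_le_pow₀ hl
  have hK0 : 0 < K := by rw [hK]; positivity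
  obtain ⟨C, hC⟩ : ∃ C : ℝ, C = C' ^ 3 + K := ⟨_, rfl⟩
  have hC3 : 1 ≤ C' ^ 3 := one_le_pow₀ hC'
  have hC1 : 1 ≤ C := by rw [hC]; linarith
  refine ⟨C, hC1, ?_⟩
  intro q x₀ ρ H X₁ v a A hp ha hρ hρ5 hH hX hv hA
  have hH0 : 0 < H := by linarith
  have hHX : 0 < H * X₁ := by positivity
  have hsH : 0 < √(H * X₁) := sqrt_pos.2 hHX
  have hHe : 1 ≤ H ^ ε := one_le_rpow hH hε.le
  change _ ≤ C * H ^ ε * (A.card : ℝ) * ((prs A (C * (1 + H ^ 2 / √(H * X₁)))).card : ℝ) ^ 2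
  have hA' : ∀ k ∈ A, 0 < uu x₀ k ∧ uu x₀ k ≤ lam * H ∧ |tt x₀ k| ≤ 5 := fun k hk =>
    ⟨lt_of_lt_of_le (by positivity) (hA k hk).1, (hA k hk).2.1, (hA k hk).2.2.trans hρ5⟩
  rcases le_or_gt 1 (min (H ^ 2) (√(H * X₁ / C'))) with hP | hP
  · obtain ⟨P, hPd⟩ : ∃ P : ℝ, P = min (H ^ 2) (√(H * X₁ / C')) := ⟨_, rfl⟩
    rw [← hPd] at hP
    obtain ⟨m, hm1, hm2⟩ := exists_nat_pow_near hP hM0
    have hP0 : 0 < P := by linarith
    have hMm : (0 : ℝ) < (M : ℝ) ^ m := by positivity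
    have hPH : P ≤ H ^ 2 := by rw [hPd]; exact min_le_left _ _
    have hPX : P ≤ √(H * X₁ / C') := by rw [hPd]; exact min_le_right _ _
    have hcond : C' / X₁ ≤ H * (1 / (M : ℝ) ^ m) ^ 2 := by
      have h1 : ((M : ℝ) ^ m) ^ 2 ≤ H * X₁ / C' := by
        have h2 : (M : ℝ) ^ m ≤ √(H * X₁ / C') := hm1.trans hPX
        have h3 := pow_le_pow_left₀ hMm.le h2 2
        rwa [sq_sqrt (by positivity)] at h3
      rw [one_div, inv_pow, ← div_eq_mul_inv, div_le_div_iff₀ hX (by positivity)]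
      rw [le_div_iff₀ hC0] at h1
      linarith
    have h7 := h6 m x₀ H ρ X₁ q v a A hH0 hX hρ hρ5 hA hp hv hcond
    obtain ⟨x, hx⟩ : ∃ x : ℕ → ℝ, ∀ r, x r = ((arc x₀ A (M ^ m) r).card : ℝ) := ⟨_, fun _ => rfl⟩
    have hx0 : ∀ r, 0 ≤ x r := fun r => by rw [hx]; positivity
    have h8 : ∑ r ∈ Finset.range (M ^ m), n6 (mu v) (gs (arc x₀ A (M ^ m) r) a (Pool.Agent.Helper78.CG.ff x₀ q)) ≤
        ∑ r ∈ Finset.range (M ^ m), x r ^ (5 / 3 : ℝ) := by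
      refine Finset.sum_le_sum fun r _ => ?_
      rw [hx]
      exact Pool.Agent.Helper92.GC.n6_gs_card hv _ ha _
    have hMe : 0 < (M : ℝ) ^ (ε / 6 * (m : ℝ)) := by positivity
    have h9 : n6 (mu v) (gs A a (Pool.Agent.Helper78.CG.ff x₀ q)) ^ 3 ≤
        (C' * (M : ℝ) ^ (ε / 6 * (m : ℝ)) * ∑ r ∈ Finset.range (M ^ m), x r ^ (5 / 3 : ℝ)) ^ 3 := by
      refine pow_le_pow_left₀ (Pool.Agent.Helper22.AC.n6_nonneg _ _) (h7.trans ?_) 3
      exact mul_le_mul_of_nonneg_left h8 (by positivity)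
    have h10 := q6_hold1 (M ^ m) x hx0
    have h11 : ∑ r ∈ Finset.range (M ^ m), x r ≤ (A.card : ℝ) := by
      have := q6_sum (β := x₀) (S := A) (N := M ^ m)
      simpa only [hx] using this
    have hMm1 : 1 ≤ M ^ m := Nat.one_le_pow _ _ (by omega)
    have h12 : ∑ r ∈ Finset.range (M ^ m), x r ^ 2 ≤ ((prs A (C * (1 + H ^ 2 / √(H * X₁)))).card : ℝ) := by
      have h13 := q6_sq (β := x₀) (S := A) (N := M ^ m) (U := lam * H) hMm1 hA'
      have h14 : ∑ r ∈ Finset.range (M ^ m), x r ^ 2 = ∑ j ∈ Finset.range (M ^ m), ((arc x₀ A (M ^ m) j).card : ℝ) ^ 2 := by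
        simp only [hx]
      rw [h14]
      refine h13.trans (q6P_mono ?_)
      push_cast
      have h15 : P < M * (M : ℝ) ^ m := by rw [pow_succ] at hm2; linarith
      have h16 : 1 / (M : ℝ) ^ m ≤ M / P := by
        rw [div_le_div_iff₀ hMm hP0]
        linarith
      have h17 : 1 / P ≤ 1 / H ^ 2 + √C' / √(H * X₁) := by
        rcases min_choice (H ^ 2) (√(H * X₁ / C')) with h | h
        · rw [hPd, h]
          have : 0 ≤ √C' / √(H * X₁) := by positivity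
          linarith
        · rw [hPd, h, sqrt_div hHX.le, one_div_div]
          have : 0 ≤ 1 / H ^ 2 := by positivity
          linarith
      have h18 : (lam * H) ^ 2 * (12 / (M : ℝ) ^ m) = 12 * lam ^ 2 * H ^ 2 * (1 / (M : ℝ) ^ m) := by ring
      rw [h18]
      have h19 : H ^ 2 * (M / P) ≤ M * (1 + √C' * (H ^ 2 / √(H * X₁))) := by
        have h20 : H ^ 2 * (M / P) = M * (H ^ 2 * (1 / P)) := by ring
        rw [h20]
        refine mul_le_mul_of_nonneg_left ?_ (by positivity)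
        refine (mul_le_mul_of_nonneg_left h17 (by positivity : (0 : ℝ) ≤ H ^ 2)).trans (le_of_eq ?_)
        have : H ^ 2 ≠ 0 := by positivity
        field_simp
      have h21 : 0 ≤ H ^ 2 / √(H * X₁) := by positivity
      calc 12 * lam ^ 2 * H ^ 2 * (1 / (M : ℝ) ^ m) ≤ 12 * lam ^ 2 * H ^ 2 * (M / P) :=
            mul_le_mul_of_nonneg_left h16 (by positivity)
        _ = 12 * lam ^ 2 * (H ^ 2 * (M / P)) := by ring
        _ ≤ 12 * lam ^ 2 * (M * (1 + √C' * (H ^ 2 / √(H * X₁)))) := mul_le_mul_of_nonneg_left h19 (by positivity)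
        _ ≤ 12 * lam ^ 2 * (M * ((1 + √C') * (1 + (H ^ 2 / √(H * X₁))))) := by
            refine mul_le_mul_of_nonneg_left ?_ (by positivity)
            refine mul_le_mul_of_nonneg_left ?_ (by positivity)
            have h22 : (1 + √C') * (1 + H ^ 2 / √(H * X₁)) = 1 + √C' * (H ^ 2 / √(H * X₁)) + (√C' + H ^ 2 / √(H * X₁)) := by ring
            rw [h22]
            linarith [sqrt_nonneg C']
        _ = K * (1 + H ^ 2 / √(H * X₁)) := by rw [hK]; ring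
        _ ≤ C * (1 + H ^ 2 / √(H * X₁)) := by
            refine mul_le_mul_of_nonneg_right ?_ (by positivity)
            rw [hC]
            linarith
    obtain ⟨Q, hQ⟩ : ∃ Q : ℝ, Q = ((prs A (C * (1 + H ^ 2 / √(H * X₁)))).card : ℝ) := ⟨_, rfl⟩
    rw [← hQ] at h12 ⊢
    have hsx0 : 0 ≤ ∑ r ∈ Finset.range (M ^ m), x r := Finset.sum_nonneg fun r _ => hx0 r
    have hsx2 : 0 ≤ ∑ r ∈ Finset.range (M ^ m), x r ^ 2 := Finset.sum_nonneg fun r _ => by positivity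
    have hMe3 : ((M : ℝ) ^ (ε / 6 * (m : ℝ))) ^ 3 ≤ H ^ ε := by
      have e1 : ((M : ℝ) ^ (ε / 6 * (m : ℝ))) ^ 3 = ((M : ℝ) ^ m) ^ (ε / 2) := by
        rw [← rpow_natCast, ← rpow_mul (by positivity), ← rpow_natCast, ← rpow_mul (by positivity)]
        congr 1
        push_cast
        ring
      rw [e1]
      have e2 : ((M : ℝ) ^ m) ^ (ε / 2) ≤ (H ^ 2) ^ (ε / 2) := rpow_le_rpow hMm.le (hm1.trans hPH) (by positivity)
      refine e2.trans (le_of_eq ?_)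
      rw [← rpow_natCast, ← rpow_mul hH0.le]
      congr 1
      push_cast
      ring
    refine h9.trans ?_
    rw [mul_pow, mul_pow]
    have h22 : (∑ r ∈ Finset.range (M ^ m), x r ^ (5 / 3 : ℝ)) ^ 3 ≤ Q ^ 2 * A.card := by
      refine h10.trans ?_
      exact mul_le_mul (pow_le_pow_left₀ hsx2 h12 2) h11 hsx0 (by positivity)
    calc C' ^ 3 * ((M : ℝ) ^ (ε / 6 * (m : ℝ))) ^ 3 * (∑ r ∈ Finset.range (M ^ m), x r ^ (5 / 3 : ℝ)) ^ 3 ≤
          C' ^ 3 * H ^ ε * (Q ^ 2 * A.card) := by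
          refine mul_le_mul (mul_le_mul_of_nonneg_left hMe3 (by positivity)) h22 ?_ (by positivity)
          exact pow_nonneg (Finset.sum_nonneg fun r _ => rpow_nonneg (hx0 r) _) 3
      _ ≤ C * H ^ ε * (Q ^ 2 * A.card) := by
          refine mul_le_mul_of_nonneg_right ?_ (by positivity)
          refine mul_le_mul_of_nonneg_right ?_ (by positivity)
          rw [hC]
          linarith
      _ = _ := by ring
  · -- all pairs are admissible
    have h1 : √(H * X₁ / C') < 1 := by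
      rcases min_lt_iff.1 hP with h | h
      · have : 1 ≤ H ^ 2 := one_le_pow₀ hH
        linarith
      · exact h
    have h2 : √(H * X₁) ≤ √C' := by
      rw [sqrt_div hHX.le, div_lt_one (by positivity)] at h1
      exact h1.le
    have h3 : prs A (C * (1 + H ^ 2 / √(H * X₁))) = A ×ˢ A := by
      unfold prs
      rw [Finset.filter_eq_self]
      intro z hz
      have g1 := hA' _ (Finset.mem_product.1 hz).1
      have g2 := hA' _ (Finset.mem_product.1 hz).2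
      have g3 : |tt x₀ z.2 - tt x₀ z.1| ≤ 10 := by
        have := abs_sub (tt x₀ z.2) (tt x₀ z.1)
        linarith [g1.2.2, g2.2.2]
      refine (q6_dd g1.1 g2.1 g1.2.1 g2.2.1 g3).trans ?_
      have g4 : H ^ 2 ≤ √C' * (H ^ 2 / √(H * X₁)) := by
        rw [← mul_div_assoc, le_div_iff₀ hsH, mul_comm]
        exact mul_le_mul_of_nonneg_right h2 (by positivity)
      have g5 : 0 ≤ H ^ 2 / √(H * X₁) := by positivity
      have g6 : lam ^ 2 * 10 * √C' ≤ C := by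
        rw [hC, hK]
        have : lam ^ 2 * 10 * √C' ≤ 12 * M * lam ^ 2 * (1 + √C') := by
          have t1 : lam ^ 2 * √C' * 10 ≤ lam ^ 2 * √C' * (12 * M) := by
            refine mul_le_mul_of_nonneg_left ?_ (by positivity)
            linarith
          have t2 : 0 ≤ 12 * M * lam ^ 2 := by positivity
          nlinarith
        linarith
      calc (lam * H) ^ 2 * 10 = lam ^ 2 * 10 * H ^ 2 := by ring
        _ ≤ lam ^ 2 * 10 * (√C' * (H ^ 2 / √(H * X₁))) := mul_le_mul_of_nonneg_left g4 (by positivity)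
        _ = (lam ^ 2 * 10 * √C') * (H ^ 2 / √(H * X₁)) := by ring
        _ ≤ C * (H ^ 2 / √(H * X₁)) := mul_le_mul_of_nonneg_right g6 g5
        _ ≤ C * (1 + H ^ 2 / √(H * X₁)) := by
            refine mul_le_mul_of_nonneg_left ?_ (by linarith)
            linarith
    rw [h3, Finset.card_product]
    push_cast
    have h4 := Pool.Agent.Helper92.GC.n6_gs_card hv A ha (Pool.Agent.Helper78.CG.ff x₀ q)
    have h5 : n6 (mu v) (gs A a (Pool.Agent.Helper78.CG.ff x₀ q)) ^ 3 ≤ ((A.card : ℝ) ^ (5 / 3 : ℝ)) ^ 3 :=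
      pow_le_pow_left₀ (Pool.Agent.Helper22.AC.n6_nonneg _ _) h4 3
    have h6' : ((A.card : ℝ) ^ (5 / 3 : ℝ)) ^ 3 = (A.card : ℝ) ^ 5 := by
      rw [← rpow_natCast, ← rpow_mul (by positivity), ← rpow_natCast]
      norm_num
    rw [h6'] at h5
    refine h5.trans ?_
    have h7 : (A.card : ℝ) ^ 5 = 1 * 1 * (A.card : ℝ) * ((A.card : ℝ) * (A.card : ℝ)) ^ 2 := by ring
    rw [h7]
    gcongr

private theorem q6_fin (S : Finset (ℤ × ℤ)) :
    Continuous (fun z : S → ℂ => ∫ c in Tq, ‖∑ k : S, z k * ee (dt (k : ℤ × ℤ) c)‖ ^ 6) := by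
  have hcomp : IsCompact Tq := isCompact_Icc.prod isCompact_Icc
  refine continuous_parametric_integral_of_continuous
    (f := fun (z : S → ℂ) (c : ℝ × ℝ) => ‖∑ k : S, z k * ee (dt (k : ℤ × ℤ) c)‖ ^ 6) ?_ hcomp
  have h1 : Continuous (fun q : (S → ℂ) × (ℝ × ℝ) => ∑ k : S, q.1 k * ee (dt (k : ℤ × ℤ) q.2)) := by
    unfold dt
    refine continuous_finsetSum _ fun k _ => ?_
    exact Continuous.mul ((continuous_apply k).comp continuous_fst) (ee_cont.comp (by fun_prop))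
  exact h1.norm.pow 6

private theorem q6_cont {X : Type} [TopologicalSpace X] (S : Finset (ℤ × ℤ)) (b : X → ℤ × ℤ → ℂ)
    (hb : ∀ k ∈ S, Continuous (fun q => b q k)) : Continuous (fun q => m6 S (b q)) := by
  have h1 : (fun q => m6 S (b q)) =
      (fun z : S → ℂ => ∫ c in Tq, ‖∑ k : S, z k * ee (dt (k : ℤ × ℤ) c)‖ ^ 6) ∘
        fun q => fun k : S => b q k := by
    funext q
    simp only [Function.comp, m6, tp]
    congr 1
    funext c
    rw [← Finset.sum_coe_sort S (fun k => b q k * ee (dt k c))]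
  rw [h1]
  exact (q6_fin S).comp (continuous_pi fun k => hb k k.2)

private theorem q6_tq : IsProbabilityMeasure ((volume : Measure (ℝ × ℝ)).restrict Tq) := by
  constructor
  unfold Tq
  rw [Measure.restrict_apply_univ, Measure.volume_eq_prod, Measure.prod_prod, Real.volume_Icc,
    sub_zero, ENNReal.ofReal_one, mul_one]

private theorem q6_tp_cont (S : Finset (ℤ × ℤ)) (b : ℤ × ℤ → ℂ) : Continuous (tp S b) := by
  unfold tp
  refine continuous_finsetSum _ fun k _ => continuous_const.mul (ee_cont.comp ?_)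
  unfold dt
  fun_prop

private theorem q6_tp_card (S : Finset (ℤ × ℤ)) {b : ℤ × ℤ → ℂ} (hb : ∀ k, ‖b k‖ ≤ 1) (c : ℝ × ℝ) : ‖tp S b c‖ ≤ S.card := by
  unfold tp
  refine (norm_sum_le _ _).trans ?_
  have h : ∀ k ∈ S, ‖b k * ee (dt k c)‖ ≤ 1 := by
    intro k _
    rw [norm_mul, ee_norm, mul_one]
    exact hb k
  refine (Finset.sum_le_sum h).trans (le_of_eq ?_)
  simp

private theorem q6_m6_card (S : Finset (ℤ × ℤ)) {b : ℤ × ℤ → ℂ} (hb : ∀ k, ‖b k‖ ≤ 1) : m6 S b ≤ (S.card : ℝ) ^ 6 := by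
  have hp := q6_tq
  have h : m6 S b ≤ ∫ c in Tq, ((S.card : ℝ) ^ 6) := by
    unfold m6
    refine integral_mono_of_nonneg (Filter.Eventually.of_forall fun q => by positivity) (integrable_const _)
      (Filter.Eventually.of_forall fun c => ?_)
    exact pow_le_pow_left₀ (norm_nonneg _) (q6_tp_card S hb c) 6
  refine h.trans (le_of_eq ?_)
  rw [integral_const, probReal_univ, one_smul]

private theorem q6_m6_nonneg (S : Finset (ℤ × ℤ)) (b : ℤ × ℤ → ℂ) : 0 ≤ m6 S b := by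
  unfold m6
  exact integral_nonneg fun c => by positivity

private theorem q6_wt {X : ℝ} {v : ℝ → ℝ} (hv : IsWt X v) : Integrable v := by
  by_contra hcon
  have h2 := hv.int_one
  rw [integral_undef hcon] at h2
  exact zero_ne_one h2

/-- one interval of length `X` -/
private theorem q6_line {c₀ X R₁ Q : ℝ} (hc₀ : 0 < c₀) (hX : 0 < X) {v : ℝ → ℝ} (hv : IsWt X v)
    (hlo : ∀ R ∈ Icc R₁ (R₁ + X), c₀ / X ≤ v R) (A : Finset (ℤ × ℤ)) {a : ℤ × ℤ → ℂ} (ha : ∀ k, ‖a k‖ ≤ 1) (f : ℤ × ℤ → ℝ)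
    (hQ : n6 (mu v) (gs A a f) ^ 3 ≤ Q) :
    ∫⁻ R in Icc R₁ (R₁ + X), ENNReal.ofReal (m6 A (fun k => a k * ee (R * f k))) ≤ ENNReal.ofReal (X / c₀ * Q) := by
  have hcont : Continuous (fun R : ℝ => m6 A (fun k => a k * ee (R * f k))) := by
    refine q6_cont A (fun (R : ℝ) k => a k * ee (R * f k)) fun k _ => ?_
    exact continuous_const.mul (ee_cont.comp (by fun_prop))
  have hle : ∀ R : ℝ, m6 A (fun k => a k * ee (R * f k)) ≤ (A.card : ℝ) ^ 6 := by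
    intro R
    refine q6_m6_card A fun k => ?_
    rw [norm_mul, ee_norm, mul_one]
    exact ha k
  have hint : Integrable (fun R => v R * m6 A (fun k => a k * ee (R * f k))) := by
    refine ((q6_wt hv).mul_const ((A.card : ℝ) ^ 6)).mono' (hv.cont.mul hcont).aestronglyMeasurable
      (Filter.Eventually.of_forall fun R => ?_)
    rw [Real.norm_of_nonneg (mul_nonneg (hv.nonneg R) (q6_m6_nonneg _ _))]
    exact mul_le_mul_of_nonneg_left (hle R) (hv.nonneg R)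
  have hXc : 0 < X / c₀ := by positivity
  calc ∫⁻ R in Icc R₁ (R₁ + X), ENNReal.ofReal (m6 A (fun k => a k * ee (R * f k)))
      ≤ ∫⁻ R in Icc R₁ (R₁ + X), ENNReal.ofReal (X / c₀ * (v R * m6 A (fun k => a k * ee (R * f k)))) := by
        refine setLIntegral_mono' measurableSet_Icc fun R hR => ENNReal.ofReal_le_ofReal ?_
        have h1 := hlo R hR
        have h2 := q6_m6_nonneg A (fun k => a k * ee (R * f k))
        have h3 : 1 ≤ X / c₀ * v R := by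
          rw [div_mul_eq_mul_div, le_div_iff₀ hc₀, one_mul]
          rw [div_le_iff₀ hX] at h1
          linarith
        calc m6 A (fun k => a k * ee (R * f k)) = 1 * m6 A (fun k => a k * ee (R * f k)) := (one_mul _).symm
          _ ≤ X / c₀ * v R * m6 A (fun k => a k * ee (R * f k)) := mul_le_mul_of_nonneg_right h3 h2
          _ = _ := by ring
    _ ≤ ∫⁻ R, ENNReal.ofReal (X / c₀ * (v R * m6 A (fun k => a k * ee (R * f k)))) := setLIntegral_le_lintegral _ _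
    _ = ENNReal.ofReal (∫ R, X / c₀ * (v R * m6 A (fun k => a k * ee (R * f k)))) := by
        rw [ofReal_integral_eq_lintegral_ofReal (hint.const_mul _)]
        exact Filter.Eventually.of_forall fun R => mul_nonneg hXc.le (mul_nonneg (hv.nonneg R) (q6_m6_nonneg _ _))
    _ ≤ ENNReal.ofReal (X / c₀ * Q) := by
        rw [integral_const_mul, ← Pool.Agent.Helper92.GC.n6_slice hv A a f]
        exact ENNReal.ofReal_le_ofReal (mul_le_mul_of_nonneg_left hQ hXc.le)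

/-- the slice of the norm -/
private noncomputable def q6q (x y t : ℝ) : ℝ := √((1 + x * t) ^ 2 + y ^ 2 * t ^ 2)

private theorem q6_crv {L : ℝ} (hL : 1 ≤ L) : ∃ c C₀ : ℝ, 0 < c ∧ ∀ x y : ℝ, |x| ≤ L → |y| ≤ L → 1 ≤ L * |y| → Crv6 c C₀ 2 (q6q x y) := by
  have hL0 : 0 < L := by linarith
  obtain ⟨G, hG⟩ : ∃ G : ℝ, G = (1 + 2 * L) ^ 2 + 4 * L ^ 2 := ⟨_, rfl⟩
  have hG0 : 0 < G := by rw [hG]; positivity
  obtain ⟨m, hm⟩ : ∃ m : ℝ, m = 1 / (2 * L ^ 4) := ⟨_, rfl⟩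
  have hm0 : 0 < m := by rw [hm]; positivity
  refine ⟨1 / L ^ 2 / (G * √G), L ^ 2 / (m * √m), by positivity, ?_⟩
  intro x y hx hy hy1
  have hy0 : 0 < |y| := by
    by_contra hcon
    push Not at hcon
    nlinarith [abs_nonneg y]
  have hx2 : x ^ 2 ≤ L ^ 2 := by
    rw [← sq_abs x]
    exact pow_le_pow_left₀ (abs_nonneg _) hx 2
  have hy2 : y ^ 2 ≤ L ^ 2 := by
    rw [← sq_abs y]
    exact pow_le_pow_left₀ (abs_nonneg _) hy 2
  have hy3 : 1 ≤ L ^ 2 * y ^ 2 := by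
    rw [← sq_abs y, ← mul_pow]
    exact one_le_pow₀ hy1
  have hy4 : 0 < y ^ 2 := by
    rw [← sq_abs y]
    positivity
  have hD : 0 < x ^ 2 + y ^ 2 := by positivity
  have hg0 : ∀ t : ℝ, m ≤ (1 + x * t) ^ 2 + y ^ 2 * t ^ 2 := by
    intro t
    have h1 : y ^ 2 ≤ (x ^ 2 + y ^ 2) * ((1 + x * t) ^ 2 + y ^ 2 * t ^ 2) := by
      nlinarith [sq_nonneg (x + (x ^ 2 + y ^ 2) * t)]
    have h2 : (x ^ 2 + y ^ 2) * ((1 + x * t) ^ 2 + y ^ 2 * t ^ 2) ≤ (2 * L ^ 2) * ((1 + x * t) ^ 2 + y ^ 2 * t ^ 2) := by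
      refine mul_le_mul_of_nonneg_right (by linarith) (by positivity)
    rw [hm, div_le_iff₀ (by positivity)]
    calc (1 : ℝ) ≤ L ^ 2 * y ^ 2 := hy3
      _ ≤ L ^ 2 * ((2 * L ^ 2) * ((1 + x * t) ^ 2 + y ^ 2 * t ^ 2)) := by
        refine mul_le_mul_of_nonneg_left (h1.trans h2) (by positivity)
      _ = _ := by ring
  refine ⟨fun t => (2 * x + 2 * (x ^ 2 + y ^ 2) * t) / (2 * √((1 + x * t) ^ 2 + y ^ 2 * t ^ 2)),
    fun t => y ^ 2 / (((1 + x * t) ^ 2 + y ^ 2 * t ^ 2) * √((1 + x * t) ^ 2 + y ^ 2 * t ^ 2)), ?_⟩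
  intro t ht
  have hgt : 0 < (1 + x * t) ^ 2 + y ^ 2 * t ^ 2 := lt_of_lt_of_le hm0 (hg0 t)
  have hst : 0 < √((1 + x * t) ^ 2 + y ^ 2 * t ^ 2) := sqrt_pos.2 hgt
  have hss : √((1 + x * t) ^ 2 + y ^ 2 * t ^ 2) ^ 2 = (1 + x * t) ^ 2 + y ^ 2 * t ^ 2 := sq_sqrt hgt.le
  have hdg : HasDerivAt (fun t : ℝ => (1 + x * t) ^ 2 + y ^ 2 * t ^ 2) (2 * x + 2 * (x ^ 2 + y ^ 2) * t) t := by
    have h1 : HasDerivAt (fun t : ℝ => 1 + x * t) x t := by
      simpa using ((hasDerivAt_id t).const_mul x).const_add 1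
    have h2 := (h1.pow 2).add ((hasDerivAt_pow 2 t).const_mul (y ^ 2))
    refine h2.congr_deriv ?_
    push_cast
    ring
  have hdq : HasDerivAt (fun t : ℝ => √((1 + x * t) ^ 2 + y ^ 2 * t ^ 2))
      ((2 * x + 2 * (x ^ 2 + y ^ 2) * t) / (2 * √((1 + x * t) ^ 2 + y ^ 2 * t ^ 2))) t := hdg.sqrt hgt.ne'
  have ht2 : t ^ 2 ≤ 4 := by
    rw [← sq_abs t]
    nlinarith [abs_nonneg t]
  have hgG : (1 + x * t) ^ 2 + y ^ 2 * t ^ 2 ≤ G := by
    have h1 : |1 + x * t| ≤ 1 + 2 * L := by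
      refine (abs_add_le _ _).trans ?_
      rw [abs_one, abs_mul]
      nlinarith [abs_nonneg x, abs_nonneg t]
    have h2 : (1 + x * t) ^ 2 ≤ (1 + 2 * L) ^ 2 := by
      rw [← sq_abs (1 + x * t)]
      exact pow_le_pow_left₀ (abs_nonneg _) h1 2
    have h3 : y ^ 2 * t ^ 2 ≤ L ^ 2 * 4 := mul_le_mul hy2 ht2 (by positivity) (by positivity)
    rw [hG]
    linarith
  refine ⟨hdq, ?_, ?_, ?_⟩
  · have h1 : HasDerivAt (fun t : ℝ => 2 * x + 2 * (x ^ 2 + y ^ 2) * t) (2 * (x ^ 2 + y ^ 2)) t := by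
      simpa using ((hasDerivAt_id t).const_mul (2 * (x ^ 2 + y ^ 2))).const_add (2 * x)
    have h2 := h1.div (hdq.const_mul 2) (by positivity)
    refine h2.congr_deriv ?_
    have hg' : 2 * (2 * (x ^ 2 + y ^ 2)) * ((1 + x * t) ^ 2 + y ^ 2 * t ^ 2) - (2 * x + 2 * (x ^ 2 + y ^ 2) * t) ^ 2 = 4 * y ^ 2 := by
      ring
    beta_reduce
    obtain ⟨r, hr⟩ : ∃ r : ℝ, r = √((1 + x * t) ^ 2 + y ^ 2 * t ^ 2) := ⟨_, rfl⟩
    rw [← hr] at hst hss ⊢
    rw [← hss] at hg' ⊢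
    have hr0 : r ≠ 0 := hst.ne'
    field_simp
    linear_combination hg' - 3 * (x ^ 2 + y ^ 2) * hss
  · have h1 : ((1 + x * t) ^ 2 + y ^ 2 * t ^ 2) * √((1 + x * t) ^ 2 + y ^ 2 * t ^ 2) ≤ G * √G :=
      mul_le_mul hgG (sqrt_le_sqrt hgG) hst.le hG0.le
    have h2 : 1 / L ^ 2 ≤ y ^ 2 := by
      rw [div_le_iff₀ (by positivity)]
      linarith
    exact div_le_div₀ hy4.le h2 (by positivity) h1
  · have h1 : m * √m ≤ ((1 + x * t) ^ 2 + y ^ 2 * t ^ 2) * √((1 + x * t) ^ 2 + y ^ 2 * t ^ 2) :=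
      mul_le_mul (hg0 t) (sqrt_le_sqrt (hg0 t)) (sqrt_nonneg _) hgt.le
    exact div_le_div₀ (by positivity) hy2 (by positivity) h1

private theorem q6_nm {θ y T x : ℝ} (hT : 0 < T) {k : ℤ × ℤ} (hk : 0 < (k.1 : ℝ)) :
    nm (vf (fr θ y T x) k) = T * (uu 0 k * q6q x y (tt 0 k)) := by
  have hu : uu 0 k = k.1 := by
    unfold uu
    ring
  have ht : (k.2 : ℝ) = k.1 * tt 0 k := by
    unfold tt
    rw [hu]
    field_simp
  obtain ⟨t, hte⟩ : ∃ t : ℝ, t = tt 0 k := ⟨_, rfl⟩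
  rw [hu, ← hte]
  rw [← hte] at ht
  unfold nm vf fr q6q
  simp only
  rw [ht]
  have e : ((k.1 : ℝ) * (T * cos θ) + k.1 * t * (T * (x * cos θ - y * sin θ))) ^ 2 +
      ((k.1 : ℝ) * (T * sin θ) + k.1 * t * (T * (x * sin θ + y * cos θ))) ^ 2 = (T * k.1) ^ 2 * ((1 + x * t) ^ 2 + y ^ 2 * t ^ 2) := by
    have h := sin_sq_add_cos_sq θ
    linear_combination ((T * k.1) ^ 2 * ((1 + x * t) ^ 2 + y ^ 2 * t ^ 2)) * h
  rw [e, sqrt_mul (by positivity), sqrt_sq (by positivity)]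
  ring

/-- the integral over the lengths up to `2 B X` for fixed shape -/
private theorem q6_T {ε lam B L : ℝ} (hε : 0 < ε) (hl : 1 ≤ lam) (_hB : 1 ≤ B) (hL : 1 ≤ L) : ∃ C : ℝ, 1 ≤ C ∧
    ∀ (X H : ℝ) (A : Finset (ℤ × ℤ)) (x y : ℝ), 1 ≤ X → 1 ≤ H → Cone H lam A → |x| ≤ L → |y| ≤ L → 1 ≤ L * |y| →
      ∫⁻ T in Ioc 0 (2 * B * X), ENNReal.ofReal (m6 A (fun k => 1 * ee (T * (Pool.Agent.Helper78.CG.ff 0 (q6q x y) k)))) ≤
        ENNReal.ofReal (C * X * H ^ ε * (A.card : ℝ) * ((prs A (C * (1 + H ^ 2 / √(H * X)))).card : ℝ) ^ 2) := by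
  classical
  obtain ⟨c, C₀, hc, hcrv⟩ := q6_crv hL
  obtain ⟨C₁, hC₁, hsix⟩ := q6_six (ε := ε) (c₁ := c) (C₀ := C₀) (lam := lam) hε hc hl
  obtain ⟨c₀, hc₀, hwt⟩ := Pool.Agent.Helper22.AC.exists_wt
  obtain ⟨N, hN⟩ : ∃ N : ℕ, N = ⌊2 * B⌋₊ + 1 := ⟨_, rfl⟩
  obtain ⟨C, hC⟩ : ∃ C : ℝ, C = C₁ * (1 + N / c₀) := ⟨_, rfl⟩
  have hN0 : (0 : ℝ) ≤ N := Nat.cast_nonneg _
  have hCC : C₁ ≤ C := by
    rw [hC]
    have : 0 ≤ (N : ℝ) / c₀ := by positivity
    nlinarith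
  refine ⟨C, hC₁.trans hCC, ?_⟩
  intro X H A x y hX hH hA hx hy hy1
  have hX0 : 0 < X := by linarith
  have hH0 : 0 < H := by linarith
  have hAu : ∀ k ∈ A, H / lam ≤ uu 0 k ∧ uu 0 k ≤ lam * H ∧ |tt 0 k| ≤ 2 := by
    intro k hk
    obtain ⟨h1, h2, h3⟩ := hA k hk
    have hk0 : 0 < (k.1 : ℝ) := lt_of_lt_of_le (by positivity) h1
    have hu : uu 0 k = k.1 := by
      unfold uu
      ring
    refine ⟨by rw [hu]; exact h1, by rw [hu]; exact h2, ?_⟩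
    unfold tt
    rw [hu, abs_div, abs_of_pos hk0, div_le_iff₀ hk0]
    exact h3
  obtain ⟨Q, hQ⟩ : ∃ Q : ℝ, Q = C₁ * H ^ ε * (A.card : ℝ) * ((prs A (C₁ * (1 + H ^ 2 / √(H * X)))).card : ℝ) ^ 2 := ⟨_, rfl⟩
  have hQ0 : 0 ≤ Q := by rw [hQ]; positivity
  have hcov : Ioc 0 (2 * B * X) ⊆ ⋃ i : Fin N, Icc ((i : ℕ) * X) ((i : ℕ) * X + X) := by
    intro T hT
    rw [mem_iUnion]
    have h1 : 0 ≤ T / X := div_nonneg hT.1.le hX0.le
    have h2 : T / X ≤ 2 * B := by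
      rw [div_le_iff₀ hX0]
      exact hT.2
    have h3 : ⌊T / X⌋₊ < N := by
      rw [hN]
      exact Nat.lt_succ_of_le (Nat.floor_le_floor h2)
    refine ⟨⟨⌊T / X⌋₊, h3⟩, ?_, ?_⟩
    · have := Nat.floor_le h1
      rw [le_div_iff₀ hX0] at this
      exact this
    · have := (Nat.lt_floor_add_one (T / X)).le
      rw [div_le_iff₀ hX0] at this
      simp only
      linarith
  have hone : ∀ i : Fin N, ∫⁻ T in Icc ((i : ℕ) * X) ((i : ℕ) * X + X),
      ENNReal.ofReal (m6 A (fun k => 1 * ee (T * (Pool.Agent.Helper78.CG.ff 0 (q6q x y) k)))) ≤ ENNReal.ofReal (X / c₀ * Q) := by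
    intro i
    obtain ⟨v, hv, hv1⟩ := hwt X hX0 ((i : ℕ) * X)
    refine q6_line hc₀ hX0 hv hv1 A (a := fun _ => (1 : ℂ)) (fun _ => by rw [norm_one]) (Pool.Agent.Helper78.CG.ff 0 (q6q x y)) ?_
    rw [hQ]
    exact hsix (q6q x y) 0 2 H X v (fun _ => 1) A (hcrv x y hx hy hy1) (fun _ => by rw [norm_one]) two_pos (by norm_num) hH hX0 hv hAu
  calc ∫⁻ T in Ioc 0 (2 * B * X), ENNReal.ofReal (m6 A (fun k => 1 * ee (T * (Pool.Agent.Helper78.CG.ff 0 (q6q x y) k))))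
      ≤ ∫⁻ T in ⋃ i : Fin N, Icc ((i : ℕ) * X) ((i : ℕ) * X + X),
          ENNReal.ofReal (m6 A (fun k => 1 * ee (T * (Pool.Agent.Helper78.CG.ff 0 (q6q x y) k)))) := lintegral_mono_set hcov
    _ ≤ ∑' i : Fin N, ∫⁻ T in Icc ((i : ℕ) * X) ((i : ℕ) * X + X),
          ENNReal.ofReal (m6 A (fun k => 1 * ee (T * (Pool.Agent.Helper78.CG.ff 0 (q6q x y) k)))) := lintegral_iUnion_le _ _
    _ ≤ ∑' _ : Fin N, ENNReal.ofReal (X / c₀ * Q) := ENNReal.tsum_le_tsum hone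
    _ = ENNReal.ofReal (N * (X / c₀ * Q)) := by
        rw [tsum_fintype, Finset.sum_const, Finset.card_univ, Fintype.card_fin, nsmul_eq_mul, ENNReal.ofReal_mul hN0,
          ENNReal.ofReal_natCast]
    _ ≤ _ := by
        refine ENNReal.ofReal_le_ofReal ?_
        have h1 : ((prs A (C₁ * (1 + H ^ 2 / √(H * X)))).card : ℝ) ≤ ((prs A (C * (1 + H ^ 2 / √(H * X)))).card : ℝ) :=
          q6P_mono (mul_le_mul_of_nonneg_right hCC (by positivity))
        have h2 : C₁ * (N / c₀) ≤ C := by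
          rw [hC]
          nlinarith
        rw [hQ]
        calc (N : ℝ) * (X / c₀ * (C₁ * H ^ ε * (A.card : ℝ) * ((prs A (C₁ * (1 + H ^ 2 / √(H * X)))).card : ℝ) ^ 2))
            = (C₁ * (N / c₀)) * (X * H ^ ε * (A.card : ℝ)) * ((prs A (C₁ * (1 + H ^ 2 / √(H * X)))).card : ℝ) ^ 2 := by ring
          _ ≤ C * (X * H ^ ε * (A.card : ℝ)) * ((prs A (C * (1 + H ^ 2 / √(H * X)))).card : ℝ) ^ 2 := by
              have hC0 : 0 ≤ C := by linarith
              gcongr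
          _ = _ := by ring

/-- a scaled integral -/
private theorem q6_scale {G : ℝ → ENNReal} (hG : Measurable G) {T a b c : ℝ} (hT : 0 < T) (ha : 0 < a) (hb : T * b ≤ c) :
    ∫⁻ r in Icc a b, G (T * r) ≤ ENNReal.ofReal T⁻¹ * ∫⁻ t in Ioc 0 c, G t := by
  have h1 : ∫⁻ r in Icc a b, G (T * r) ≤ ∫⁻ r, (Ioc 0 c).indicator G (T * r) := by
    rw [← lintegral_indicator measurableSet_Icc]
    refine lintegral_mono fun r => ?_
    by_cases hr : r ∈ Icc a b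
    · have hm : T * r ∈ Ioc 0 c := ⟨mul_pos hT (ha.trans_le hr.1), (mul_le_mul_of_nonneg_left hr.2 hT.le).trans hb⟩
      rw [indicator_of_mem hr, indicator_of_mem hm]
    · rw [indicator_of_notMem hr]
      exact zero_le
  refine h1.trans (le_of_eq ?_)
  have h2 : ∫⁻ r, (Ioc 0 c).indicator G (T * r) = ∫⁻ t, (Ioc 0 c).indicator G t ∂(Measure.map (T * ·) volume) := by
    rw [lintegral_map (hG.indicator measurableSet_Ioc) (measurable_const_mul T)]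
  rw [h2, Real.map_volume_mul_left hT.ne', lintegral_smul_measure, abs_of_pos (inv_pos.2 hT), lintegral_indicator measurableSet_Ioc]
  rfl

theorem m6_fix {e : Fr} (he : 0 < df e) {ε B lam : ℝ} (hε : 0 < ε) (hB : 1 ≤ B) (hl : 1 ≤ lam) : ∃ C : ℝ, 1 ≤ C ∧
    ∀ (X H s : ℝ) (S : Finset (ℤ × ℤ)), 1 ≤ X → 1 ≤ H → Cone H lam S → s ∈ Icc B⁻¹ B →
      ∫⁻ r in Icc (X / B) (B * X), ENNReal.ofReal (m6 S (fun k => ee (r * nm (vf (st s e) k)))) ≤
        ENNReal.ofReal (C * X * H ^ ε * (S.card : ℝ) * ((prs S (C * (1 + H ^ 2 / √(H * X)))).card : ℝ) ^ 2) := by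
  obtain ⟨⟨a, b⟩, ⟨c, d⟩⟩ := e
  have hB0 : 0 < B := by linarith
  have hdf : df ((a, b), (c, d)) = a * d - b * c := rfl
  rw [hdf] at he
  have hab : 0 < a ^ 2 + b ^ 2 := by
    have h1 : a ≠ 0 ∨ b ≠ 0 := by
      by_contra hcon
      push Not at hcon
      rw [hcon.1, hcon.2] at he
      simp at he
    rcases h1 with h1 | h1
    · positivity
    · positivity
  obtain ⟨μ, hμ⟩ : ∃ μ : ℝ, μ = (a ^ 2 + b ^ 2) / B ^ 2 := ⟨_, rfl⟩
  have hμ0 : 0 < μ := by rw [hμ]; positivity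
  obtain ⟨M, hM⟩ : ∃ M : ℝ, M = (a ^ 2 + b ^ 2) * B ^ 2 := ⟨_, rfl⟩
  have hM0 : 0 < M := by rw [hM]; positivity
  obtain ⟨L, hL⟩ : ∃ L : ℝ, L = 1 + (|a * c| + B ^ 2 * |b * d|) / μ + B * (a * d - b * c) / μ + B * M / (a * d - b * c) := ⟨_, rfl⟩
  have g1 : 0 ≤ (|a * c| + B ^ 2 * |b * d|) / μ := by positivity
  have g2 : 0 ≤ B * (a * d - b * c) / μ := by positivity
  have g3 : 0 ≤ B * M / (a * d - b * c) := by positivity
  have hL1 : 1 ≤ L := by rw [hL]; linarith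
  obtain ⟨B₁, hB₁⟩ : ∃ B₁ : ℝ, B₁ = 1 + B * √M := ⟨_, rfl⟩
  have hB₁1 : 1 ≤ B₁ := by
    rw [hB₁]
    have : 0 ≤ B * √M := by positivity
    linarith
  obtain ⟨C₁, hC₁, hT⟩ := q6_T (ε := ε) (lam := lam) (B := B₁) (L := L) hε hl hB₁1 hL1
  obtain ⟨C, hC⟩ : ∃ C : ℝ, C = C₁ * (1 + (√μ)⁻¹) := ⟨_, rfl⟩
  have hμs : 0 < √μ := sqrt_pos.2 hμ0
  have hCC : C₁ ≤ C := by
    rw [hC]
    have : 0 ≤ (√μ)⁻¹ := by positivity
    nlinarith
  refine ⟨C, hC₁.trans hCC, ?_⟩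
  intro X H s S hX hH hS hs
  have hX0 : 0 < X := by linarith
  have hH0 : 0 < H := by linarith
  have hs0 : 0 < s := lt_of_lt_of_le (inv_pos.2 hB0) hs.1
  -- the frame
  obtain ⟨f, hf⟩ : ∃ f : Fr, f = st s ((a, b), (c, d)) := ⟨_, rfl⟩
  have hf' : f = ((a, s * b), (c, s * d)) := hf
  have hs1 : (B ^ 2)⁻¹ ≤ s ^ 2 := by
    rw [← inv_pow]
    exact pow_le_pow_left₀ (inv_pos.2 hB0).le hs.1 2
  have hs2 : s ^ 2 ≤ B ^ 2 := pow_le_pow_left₀ hs0.le hs.2 2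
  have hBi : (B ^ 2)⁻¹ ≤ 1 := inv_le_one_of_one_le₀ (one_le_pow₀ hB)
  have hB2 : 1 ≤ B ^ 2 := one_le_pow₀ hB
  obtain ⟨q, hq⟩ : ∃ q : ℝ, q = a ^ 2 + (s * b) ^ 2 := ⟨_, rfl⟩
  have hqlo : μ ≤ q := by
    rw [hμ, hq, div_eq_mul_inv, mul_pow]
    have h1 : a ^ 2 * (B ^ 2)⁻¹ ≤ a ^ 2 * 1 := mul_le_mul_of_nonneg_left hBi (sq_nonneg a)
    have h2 : b ^ 2 * (B ^ 2)⁻¹ ≤ b ^ 2 * s ^ 2 := mul_le_mul_of_nonneg_left hs1 (sq_nonneg b)
    linarith
  have hqhi : q ≤ M := by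
    rw [hM, hq, mul_pow]
    have h1 : a ^ 2 * 1 ≤ a ^ 2 * B ^ 2 := mul_le_mul_of_nonneg_left hB2 (sq_nonneg a)
    have h2 : b ^ 2 * s ^ 2 ≤ b ^ 2 * B ^ 2 := mul_le_mul_of_nonneg_left hs2 (sq_nonneg b)
    linarith
  have hq0 : 0 < q := hμ0.trans_le hqlo
  have hTf : Tf f = √q := by
    rw [hf', hq]
    rfl
  have hxf : xf f = (a * c + s * b * (s * d)) / q := by
    rw [hf', hq]
    rfl
  have hyf : yf f = s * (a * d - b * c) / q := by
    rw [hf', hq]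
    unfold yf df
    simp only
    congr 1
    ring
  have hT0 : 0 < Tf f := by rw [hTf]; exact sqrt_pos.2 hq0
  have hx : |xf f| ≤ L := by
    rw [hxf, abs_div, abs_of_pos hq0]
    have h1 : |a * c + s * b * (s * d)| ≤ |a * c| + B ^ 2 * |b * d| := by
      have h2 : s * b * (s * d) = s ^ 2 * (b * d) := by ring
      rw [h2]
      refine (abs_add_le _ _).trans ?_
      rw [abs_mul (s ^ 2) (b * d), abs_of_nonneg (sq_nonneg s)]
      have h3 : s ^ 2 * |b * d| ≤ B ^ 2 * |b * d| := mul_le_mul_of_nonneg_right hs2 (abs_nonneg _)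
      linarith
    have h2 : |a * c + s * b * (s * d)| / q ≤ (|a * c| + B ^ 2 * |b * d|) / μ := div_le_div₀ (by positivity) h1 hμ0 hqlo
    rw [hL]
    linarith
  have hy0 : 0 < yf f := by rw [hyf]; positivity
  have hy : |yf f| ≤ L := by
    rw [abs_of_pos hy0, hyf]
    have h2 : s * (a * d - b * c) / q ≤ B * (a * d - b * c) / μ :=
      div_le_div₀ (by positivity) (mul_le_mul_of_nonneg_right hs.2 he.le) hμ0 hqlo
    rw [hL]
    linarith
  have hy1 : 1 ≤ L * |yf f| := by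
    rw [abs_of_pos hy0, hyf]
    have h2 : B * M / (a * d - b * c) ≤ L := by
      rw [hL]
      linarith
    have h3 : 1 ≤ B * M / (a * d - b * c) * (s * (a * d - b * c) / q) := by
      have h4 : B * M / (a * d - b * c) * (s * (a * d - b * c) / q) = (B * s) * (M / q) := by
        field_simp
      rw [h4]
      have h5 : 1 ≤ B * s := by
        have : B * B⁻¹ ≤ B * s := mul_le_mul_of_nonneg_left hs.1 hB0.le
        rwa [mul_inv_cancel₀ hB0.ne'] at this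
      have h6 : 1 ≤ M / q := by rwa [one_le_div hq0]
      exact one_le_mul_of_one_le_of_one_le h5 h6
    exact h3.trans (mul_le_mul_of_nonneg_right h2 (by positivity))
  obtain ⟨θ, -, hθ⟩ := Pool.Agent.Helper60.LT.fr_surj hT0
  obtain ⟨G, hG⟩ : ∃ G : ℝ → ENNReal, ∀ t, G t = ENNReal.ofReal (m6 S (fun k => 1 * ee (t * (Pool.Agent.Helper78.CG.ff 0 (q6q (xf f) (yf f)) k)))) :=
    ⟨_, fun _ => rfl⟩
  have hGm : Measurable G := by
    have h1 : G = fun t => ENNReal.ofReal (m6 S (fun k => 1 * ee (t * (Pool.Agent.Helper78.CG.ff 0 (q6q (xf f) (yf f)) k)))) := by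
      funext t
      exact hG t
    rw [h1]
    refine ENNReal.measurable_ofReal.comp (Continuous.measurable ?_)
    refine q6_cont S (fun (t : ℝ) k => 1 * ee (t * (Pool.Agent.Helper78.CG.ff 0 (q6q (xf f) (yf f)) k))) fun k _ =>
      continuous_const.mul (ee_cont.comp ?_)
    fun_prop
  have hfe : ∀ r : ℝ, ENNReal.ofReal (m6 S (fun k => ee (r * nm (vf (st s ((a, b), (c, d))) k)))) = G (Tf f * r) := by
    intro r
    rw [hG, ← hf]
    congr 1
    refine Pool.Agent.Helper92.GC.m6_congr fun k hk => ?_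
    have hk0 : 0 < (k.1 : ℝ) := lt_of_lt_of_le (by positivity) (hS k hk).1
    have e1 : nm (vf f k) = Tf f * (uu 0 k * q6q (xf f) (yf f) (tt 0 k)) := by
      conv_lhs => rw [hθ]
      exact q6_nm hT0 hk0
    rw [e1, one_mul]
    congr 1
    unfold Pool.Agent.Helper78.CG.ff
    ring
  refine (lintegral_mono fun r => (hfe r).le).trans ?_
  have hb1 : Tf f * (B * X) ≤ 2 * B₁ * X := by
    rw [hTf, hB₁]
    have h1 : √q ≤ √M := sqrt_le_sqrt hqhi
    have h2 : √q * (B * X) ≤ √M * (B * X) := mul_le_mul_of_nonneg_right h1 (by positivity)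
    have h3 : 0 ≤ √M * (B * X) := by positivity
    have h4 : 2 * (1 + B * √M) * X = 2 * X + 2 * (√M * (B * X)) := by ring
    rw [h4]
    linarith
  refine (q6_scale hGm hT0 (by positivity) hb1).trans ?_
  have hTT : ∫⁻ t in Ioc 0 (2 * B₁ * X), G t ≤ ENNReal.ofReal (C₁ * X * H ^ ε * (S.card : ℝ) * ((prs S (C₁ * (1 + H ^ 2 / √(H * X)))).card : ℝ) ^ 2) := by
    refine (lintegral_mono fun t => (hG t).le).trans ?_
    exact hT X H S (xf f) (yf f) hX hH hS hx hy hy1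
  refine (mul_le_mul_right hTT _).trans ?_
  rw [← ENNReal.ofReal_mul (by positivity)]
  refine ENNReal.ofReal_le_ofReal ?_
  have h1 : ((prs S (C₁ * (1 + H ^ 2 / √(H * X)))).card : ℝ) ≤ ((prs S (C * (1 + H ^ 2 / √(H * X)))).card : ℝ) :=
    q6P_mono (mul_le_mul_of_nonneg_right hCC (by positivity))
  have h2 : (Tf f)⁻¹ * C₁ ≤ C := by
    rw [hC, hTf]
    have h3 : (√q)⁻¹ ≤ (√μ)⁻¹ := inv_anti₀ hμs (sqrt_le_sqrt hqlo)
    have hC₁0 : 0 < C₁ := by linarith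
    nlinarith
  calc (Tf f)⁻¹ * (C₁ * X * H ^ ε * (S.card : ℝ) * ((prs S (C₁ * (1 + H ^ 2 / √(H * X)))).card : ℝ) ^ 2)
      = (Tf f)⁻¹ * C₁ * (X * H ^ ε * (S.card : ℝ)) * ((prs S (C₁ * (1 + H ^ 2 / √(H * X)))).card : ℝ) ^ 2 := by ring
    _ ≤ C * (X * H ^ ε * (S.card : ℝ)) * ((prs S (C * (1 + H ^ 2 / √(H * X)))).card : ℝ) ^ 2 := by
        have hC0 : 0 ≤ C := by linarith
        have hW : 0 ≤ X * H ^ ε * (S.card : ℝ) := mul_nonneg (mul_nonneg hX0.le (rpow_nonneg hH0.le _)) (Nat.cast_nonneg _)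
        exact mul_le_mul (mul_le_mul_of_nonneg_right h2 hW) (pow_le_pow_left₀ (Nat.cast_nonneg _) h1 2) (sq_nonneg _) (mul_nonneg hC0 hW)
    _ = _ := by ring

end Pool.Agent.Helper60.RT
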