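import Pool.Agent.Helper60.RT.E1c
import Pool.Agent.Helper48.RT.E2
import Pool.Agent.Helper33.RT.E3
import Pool.Agent.Helper92.RT.Final

/-!
# Project RT: every lattice, almost every stretch, all centres: exponent 5/9
-/

open MeasureTheory Real Set Filter Topology

set_option autoImplicit false

namespace Pool.Agent.Helper60.RT

/-- the theorem -/
theorem main (u v : ℝ × ℝ) (huv : u.1 * v.2 - u.2 * v.1 ≠ 0) : ∀ᵐ α : ℝ, 0 < α → ∀ ε : ℝ, 0 < ε → ∃ C : ℝ, ∀ R : ℝ, 1 ≤ R → ∀ c : ℝ × ℝ,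
      |(Nat.card {k : ℤ × ℤ // ((k.1 : ℝ) * u.1 + k.2 * v.1 - c.1) ^ 2 + α * ((k.1 : ℝ) * u.2 + k.2 * v.2 - c.2) ^ 2 ≤ R ^ 2} : ℝ) -
        π * R ^ 2 / (√α * |u.1 * v.2 - u.2 * v.1|)| ≤ C * R ^ (5 / 9 + ε) :=
  final (sqa_bd fun _ he _ _ hη hB => cone_bd he hη hB fun _ _ hη' hε' => local_bd he hη' hε' hB) u v huv

end Pool.Agent.Helper60.RT
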